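import Mathlib

/-!
# MP_4bdd60_an: arithmetic of the levels

PLAN (80 lines, Mathlib only).  `sN B p N = 6 + ⌈log₂ (2^16 (B+1) (N+1)^p)⌉₊`, `JN B p σ N = ⌊(1-σ)/2 * N⌋₊ / sN B p N`.
`sN_pow`: `2 ^ logb 2 x = x` and `x ≤ 2 ^ ⌈logb 2 x⌉₊`.
`grow`: `sN B p N ≤ C log (N+2)`, so `JN ≥ c N / log (N+2) - 1`, and `(N+1)^p / JN ≤ C' (N+1)^(p-1) log (N+2)`,
which is `o(JN)` since `p < 2` (`isLittleO_log_rpow_atTop`: choose `δ = (2-p)/4` and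
`log (N+2) ≤ C'' (N+1)^δ` eventually; then `JN ≥ c' (N+1)^(1-δ)` eventually).
-/

set_option autoImplicit false

namespace Pool.Agent.H.MP_4bdd60_an.LP

open Filter Topology

noncomputable def sN (B p : ℝ) (N : ℕ) : ℕ :=
  6 + ⌈Real.logb 2 (2 ^ 16 * (B + 1) * ((N : ℝ) + 1) ^ p)⌉₊

noncomputable def JN (B p σ : ℝ) (N : ℕ) : ℕ := ⌊(1 - σ) / 2 * (N : ℝ)⌋₊ / sN B p N

theorem sN_pow {B p : ℝ} (hB : 0 ≤ B) (N : ℕ) :
    2 ^ 16 * (B + 1) * ((N : ℝ) + 1) ^ p ≤ (2 : ℝ) ^ sN B p N := by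
  have hx : (0 : ℝ) < (N : ℝ) + 1 := by positivity
  have hpos : 0 < 2 ^ 16 * (B + 1) * ((N : ℝ) + 1) ^ p := by
    have := Real.rpow_pos_of_pos hx p
    positivity
  unfold sN
  set y := 2 ^ 16 * (B + 1) * ((N : ℝ) + 1) ^ p with hy
  have h1 : (2 : ℝ) ^ (Real.logb 2 y) = y := Real.rpow_logb (by norm_num) (by norm_num) hpos
  calc y = (2 : ℝ) ^ (Real.logb 2 y) := h1.symm
    _ ≤ (2 : ℝ) ^ ((⌈Real.logb 2 y⌉₊ : ℕ) : ℝ) :=
        Real.rpow_le_rpow_of_exponent_le (by norm_num) (Nat.le_ceil _)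
    _ = (2 : ℝ) ^ ⌈Real.logb 2 y⌉₊ := Real.rpow_natCast _ _
    _ ≤ (2 : ℝ) ^ (6 + ⌈Real.logb 2 y⌉₊) := pow_le_pow_right₀ (by norm_num) (by omega)

theorem Ari_tendsto {r : ℝ} (hr : 0 < r) (C : ℝ) : ∀ᶠ N : ℕ in atTop, C ≤ ((N : ℝ) + 1) ^ r := by
  have h1 : Tendsto (fun N : ℕ => (N : ℝ) + 1) atTop atTop :=
    tendsto_atTop_add_const_right _ _ tendsto_natCast_atTop_atTop
  exact ((tendsto_rpow_atTop hr).comp h1).eventually_ge_atTop C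

theorem Ari_log {r e : ℝ} (hr : 0 < r) (he : 0 < e) :
    ∀ᶠ N : ℕ in atTop, Real.log ((N : ℝ) + 1) ≤ e * ((N : ℝ) + 1) ^ r := by
  have h1 : Tendsto (fun N : ℕ => (N : ℝ) + 1) atTop atTop :=
    tendsto_atTop_add_const_right _ _ tendsto_natCast_atTop_atTop
  have h2 := h1.eventually ((isLittleO_log_rpow_atTop hr).bound he)
  filter_upwards [h2] with N hN
  have h3 : (0 : ℝ) ≤ ((N : ℝ) + 1) ^ r := by positivity
  rw [Real.norm_eq_abs, Real.norm_eq_abs, abs_of_nonneg h3] at hN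
  exact (le_abs_self _).trans hN

theorem Ari_sN {p B : ℝ} (hp0 : 0 < p) (hB : 0 ≤ B) (N : ℕ) :
    (sN B p N : ℝ) ≤ 7 + Real.logb 2 (2 ^ 16 * (B + 1)) + p * (Real.log ((N : ℝ) + 1) / Real.log 2) := by
  have hx : (1 : ℝ) ≤ (N : ℝ) + 1 := by
    have : (0 : ℝ) ≤ N := Nat.cast_nonneg N
    linarith
  have hx0 : (0 : ℝ) < (N : ℝ) + 1 := by linarith
  have h1 : Real.logb 2 (2 ^ 16 * (B + 1) * ((N : ℝ) + 1) ^ p) =
      Real.logb 2 (2 ^ 16 * (B + 1)) + p * (Real.log ((N : ℝ) + 1) / Real.log 2) := by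
    rw [Real.logb_mul (by positivity) (Real.rpow_pos_of_pos hx0 p).ne', Real.logb_rpow_eq_mul_logb_of_pos hx0]
    rfl
  have h2 : 0 ≤ Real.logb 2 (2 ^ 16 * (B + 1) * ((N : ℝ) + 1) ^ p) := by
    refine Real.logb_nonneg (by norm_num) ?_
    have h3 : (1 : ℝ) ≤ ((N : ℝ) + 1) ^ p := Real.one_le_rpow hx hp0.le
    nlinarith
  have h3 := Nat.ceil_lt_add_one h2
  unfold sN
  push_cast
  rw [h1] at h3 ⊢
  linarith

theorem grow {p σ B : ℝ} (hp0 : 0 < p) (hp : p < 2) (hσ0 : 0 < σ) (hσ : σ < 1) (hB : 0 ≤ B)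
    (K : ℝ) (hK : 0 ≤ K) (n₀ : ℕ) :
    ∀ᶠ N : ℕ in atTop, 1 ≤ JN B p σ N ∧
      K * (((N : ℝ) + 1) ^ p / JN B p σ N) + n₀ + 1 ≤ (JN B p σ N : ℝ) / 32 := by
  have hd : 0 < (2 - p) / 4 := by linarith
  have hd1 : 0 < 1 - (2 - p) / 4 := by linarith
  have he : 0 < (2 - p) / 2 := by linarith
  have hl2 : 0 < Real.log 2 := Real.log_pos (by norm_num)
  obtain ⟨c0, hc0⟩ : ∃ c0 : ℝ, c0 = (1 - σ) / 2 := ⟨_, rfl⟩
  have hc0p : 0 < c0 := by rw [hc0]; linarith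
  obtain ⟨c, hc⟩ : ∃ c : ℝ, c = c0 / 2 := ⟨_, rfl⟩
  have hcp : 0 < c := by rw [hc]; linarith
  filter_upwards [Ari_log hd (show 0 < Real.log 2 / (2 * p) by positivity),
    Ari_tendsto hd (2 * (7 + Real.logb 2 (2 ^ 16 * (B + 1)))),
    Ari_tendsto hd1 (4 / c0), Ari_tendsto hd1 (2 / c), Ari_tendsto hd1 (64 * ((n₀ : ℝ) + 1) / c),
    Ari_tendsto he (64 * (K + 1) / c ^ 2), Ari_tendsto one_pos (4 * (c0 + 1) / c0)]
    with N h1 h2 h3 h3' h3'' h5 h4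
  rw [Real.rpow_one] at h4
  obtain ⟨X, hX⟩ : ∃ X : ℝ, X = (N : ℝ) + 1 := ⟨_, rfl⟩
  have hX1 : 1 ≤ X := by
    have : (0 : ℝ) ≤ N := Nat.cast_nonneg N
    rw [hX]; linarith
  have hX0 : 0 < X := by linarith
  rw [← hX] at h1 h2 h3 h3' h3'' h5 h4 ⊢
  have hs := Ari_sN hp0 hB N
  rw [← hX] at hs
  have hs1 : (sN B p N : ℝ) ≤ X ^ ((2 - p) / 4) := by
    have h6 : p * (Real.log X / Real.log 2) ≤ X ^ ((2 - p) / 4) / 2 := by
      calc p * (Real.log X / Real.log 2) ≤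
          p * (Real.log 2 / (2 * p) * X ^ ((2 - p) / 4) / Real.log 2) := by
            refine mul_le_mul_of_nonneg_left ?_ hp0.le
            exact div_le_div_of_nonneg_right h1 hl2.le
        _ = X ^ ((2 - p) / 4) / 2 := by field_simp
    linarith
  have hs0 : (0 : ℝ) < sN B p N := by
    have : 0 < sN B p N := by unfold sN; omega
    exact_mod_cast this
  have hJ : (⌊(1 - σ) / 2 * (N : ℝ)⌋₊ : ℝ) / (sN B p N : ℝ) < (JN B p σ N : ℝ) + 1 := by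
    have h7 := Nat.lt_floor_add_one ((⌊(1 - σ) / 2 * (N : ℝ)⌋₊ : ℝ) / (sN B p N : ℝ))
    rwa [Nat.floor_div_eq_div] at h7
  have hfl : c0 * (N : ℝ) - 1 < (⌊(1 - σ) / 2 * (N : ℝ)⌋₊ : ℝ) := by
    have h7 := Nat.lt_floor_add_one ((1 - σ) / 2 * (N : ℝ))
    rw [hc0]; linarith
  have hnum : 3 / 4 * c0 * X ≤ c0 * (N : ℝ) - 1 := by
    have h7 : (N : ℝ) = X - 1 := by rw [hX]; ring
    have h8 : 4 * (c0 + 1) ≤ X * c0 := (div_le_iff₀ hc0p).mp h4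
    rw [h7]; nlinarith
  have hXd : 0 < X ^ ((2 - p) / 4) := Real.rpow_pos_of_pos hX0 _
  have hY : X = X ^ (1 - (2 - p) / 4) * X ^ ((2 - p) / 4) := by
    rw [← Real.rpow_add hX0]
    norm_num
  obtain ⟨Y, hYd⟩ : ∃ Y : ℝ, Y = X ^ (1 - (2 - p) / 4) := ⟨_, rfl⟩
  have hY0 : 0 < Y := by rw [hYd]; exact Real.rpow_pos_of_pos hX0 _
  rw [← hYd] at h3 h3' h3'' hY
  have hJ2 : 3 / 4 * c0 * Y < (JN B p σ N : ℝ) + 1 := by
    refine lt_of_le_of_lt ?_ hJ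
    calc 3 / 4 * c0 * Y = 3 / 4 * c0 * X / X ^ ((2 - p) / 4) := by
          rw [eq_div_iff hXd.ne', mul_assoc, ← hY]
      _ ≤ 3 / 4 * c0 * X / (sN B p N : ℝ) :=
          div_le_div_of_nonneg_left (by positivity) hs0 hs1
      _ ≤ (⌊(1 - σ) / 2 * (N : ℝ)⌋₊ : ℝ) / (sN B p N : ℝ) :=
          div_le_div_of_nonneg_right (hnum.trans hfl.le) hs0.le
  have h9 : 4 ≤ Y * c0 := (div_le_iff₀ hc0p).mp h3
  have h10 : 2 ≤ Y * c := (div_le_iff₀ hcp).mp h3'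
  have hJ3 : c * Y ≤ (JN B p σ N : ℝ) := by
    rw [hc]; nlinarith
  have hJ1 : (1 : ℝ) ≤ (JN B p σ N : ℝ) := by nlinarith
  refine ⟨by exact_mod_cast hJ1, ?_⟩
  have hE0 : 0 < X ^ ((2 - p) / 2) := Real.rpow_pos_of_pos hX0 _
  have hXp : X ^ p * X ^ ((2 - p) / 2) = Y * Y := by
    rw [hYd, ← Real.rpow_add hX0, ← Real.rpow_add hX0]
    congr 1
    ring
  have h11 : X ^ p / (JN B p σ N : ℝ) ≤ c * Y / (64 * (K + 1)) := by
    have hK1 : 0 < 64 * (K + 1) := by linarith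
    rw [div_le_div_iff₀ (by linarith) hK1]
    have h12 : 64 * (K + 1) ≤ X ^ ((2 - p) / 2) * c ^ 2 := (div_le_iff₀ (by positivity)).mp h5
    have h13 : 0 ≤ X ^ p := by positivity
    calc X ^ p * (64 * (K + 1)) ≤ X ^ p * (X ^ ((2 - p) / 2) * c ^ 2) :=
          mul_le_mul_of_nonneg_left h12 h13
      _ = (X ^ p * X ^ ((2 - p) / 2)) * c ^ 2 := by ring
      _ = c * Y * (c * Y) := by rw [hXp]; ring
      _ ≤ c * Y * (JN B p σ N : ℝ) := mul_le_mul_of_nonneg_left hJ3 (by positivity)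
  have h14 : K * (X ^ p / (JN B p σ N : ℝ)) ≤ c * Y / 64 := by
    calc K * (X ^ p / (JN B p σ N : ℝ)) ≤ K * (c * Y / (64 * (K + 1))) :=
          mul_le_mul_of_nonneg_left h11 hK
      _ = (K / (K + 1)) * (c * Y / 64) := by field_simp
      _ ≤ 1 * (c * Y / 64) := by
          refine mul_le_mul_of_nonneg_right ?_ (by positivity)
          rw [div_le_one (by linarith)]
          linarith
      _ = c * Y / 64 := one_mul _
  have h15 : (n₀ : ℝ) + 1 ≤ c * Y / 64 := by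
    have h16 : 64 * ((n₀ : ℝ) + 1) ≤ Y * c := (div_le_iff₀ hcp).mp h3''
    linarith
  linarith

end Pool.Agent.H.MP_4bdd60_an.LP
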