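import Mathlib
import Pool.Agent.H.MP_4bdd60_an.U.Cnt

/-!
# MP_4bdd60_an: separated good levels (definitions)
-/

set_option autoImplicit false

namespace Pool.Agent.H.MP_4bdd60_an.LP

open MeasureTheory Set Filter Topology
open scoped ENNReal

/-- distance (in the coordinate `Y`) from `w` to the left quarter of its dyadic interval of level `n` -/
noncomputable def gapL (Y : ℝ → ℝ) (n : ℕ) (w : ℝ) : ℝ :=
  Y w - Y (((idx n w : ℝ) + 1 / 4) / 2 ^ n)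

/-- distance (in the coordinate `Y`) from `w` to the right quarter of its dyadic interval of level `n` -/
noncomputable def gapR (Y : ℝ → ℝ) (n : ℕ) (w : ℝ) : ℝ :=
  Y (((idx n w : ℝ) + 3 / 4) / 2 ^ n) - Y w

/-- the levels `n` and `m` are separated at `w` -/
def Sp (Y : ℝ → ℝ) (n m : ℕ) (w : ℝ) : Prop :=
  15 * len Y m (idx m w) ≤ gapL Y n w ∧ 15 * len Y m (idx m w) ≤ gapR Y n w

/-- many separated good levels, compared with the bound `β` for their energies -/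
def Rich (Y₁ Y₂ : ℝ → ℝ) (y : ℝ) : Prop :=
  ∀ M : ℝ≥0∞, M ≠ ∞ → ∀ n₀ : ℕ, ∃ (F : Finset ℕ) (β : ℝ≥0∞), β ≠ 0 ∧ β ≠ ∞ ∧
    M * β ≤ (F.card : ℝ≥0∞) ∧ F.Nonempty ∧
    (∀ n ∈ F, n₀ ≤ n ∧ y ∈ Gd Y₁ Y₂ β n) ∧
    (∀ n ∈ F, ∀ m ∈ F, n < m → Sp Y₁ n m y ∧ Sp Y₂ n m y)

end Pool.Agent.H.MP_4bdd60_an.LP
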