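import Mathlib
import Pool.Agent.H.MP_4bdd60_an.V.Df

/-!
# MP_4bdd60_an: the increment `D` as a sum over cells

PLAN (70 lines).  `D Y n (n+s) = ∫⁻ w in Ico 0 1, ofReal (lam Y (n+s) w - lam Y n w)` and
`lam Y m w = -log (len Y m (idx m w))`.  `Ico 0 1` is the disjoint union of the cells
`Ico (i/2^m) ((i+1)/2^m)`, `i < 2^m`, `m = n + s`; on the cell number `i = k * 2^s + j` (`k < 2^n`, `j < 2^s`) one has
`idx m w = i` and `idx n w = k` (use `Int.floor_eq_iff`), and the volume of the cell is `2⁻¹ ^ m`.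
It is enough to prove `≤`: the sum of the integrals over disjoint measurable sets is the integral over the union,
which is contained in `Ico 0 1` (`lintegral_biUnion_finset` / `measure_biUnion_finset`, `lintegral_mono_set`).
-/

set_option autoImplicit false

namespace Pool.Agent.H.MP_4bdd60_an.LP

open MeasureTheory Set Filter Topology
open scoped ENNReal

theorem Cel_idx_m (m i : ℕ) {w : ℝ} (h : w ∈ Ico ((i : ℝ) / 2 ^ m) (((i : ℝ) + 1) / 2 ^ m)) :
    idx m w = (i : ℤ) := by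
  unfold idx
  rw [Int.floor_eq_iff]
  have hp : (0 : ℝ) < 2 ^ m := by positivity
  exact ⟨by rw [Int.cast_natCast]; exact (div_le_iff₀ hp).1 h.1,
    by rw [Int.cast_natCast]; exact (lt_div_iff₀ hp).1 h.2⟩

theorem Cel_idx_n (n s k j : ℕ) (hj : j < 2 ^ s) {w : ℝ}
    (h : w ∈ Ico (((k * 2 ^ s + j : ℕ) : ℝ) / 2 ^ (n + s))
      ((((k * 2 ^ s + j : ℕ) : ℝ) + 1) / 2 ^ (n + s))) :
    idx n w = (k : ℤ) := by
  unfold idx
  rw [Int.floor_eq_iff]
  have hp : (0 : ℝ) < 2 ^ (n + s) := by positivity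
  have hs : (0 : ℝ) < 2 ^ s := by positivity
  have h1 := (div_le_iff₀ hp).1 h.1
  have h2 := (lt_div_iff₀ hp).1 h.2
  rw [pow_add, ← mul_assoc] at h1 h2
  push_cast at h1 h2
  have hj0 : (0 : ℝ) ≤ j := Nat.cast_nonneg _
  have hj1 : (j : ℝ) + 1 ≤ 2 ^ s := by exact_mod_cast hj
  rw [Int.cast_natCast]
  constructor
  · have h3 : (k : ℝ) * 2 ^ s ≤ w * 2 ^ n * 2 ^ s := by linarith
    exact le_of_mul_le_mul_right h3 hs
  · have h3 : w * 2 ^ n * 2 ^ s < ((k : ℝ) + 1) * 2 ^ s := by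
      have : ((k : ℝ) + 1) * 2 ^ s = (k : ℝ) * 2 ^ s + 2 ^ s := by ring
      linarith
    exact lt_of_mul_lt_mul_right h3 hs.le

theorem sum_cells_le (Y : ℝ → ℝ) (n s : ℕ) :
    ∑ k ∈ Finset.range (2 ^ n), ∑ j ∈ Finset.range (2 ^ s),
      (2 : ℝ≥0∞)⁻¹ ^ (n + s) * ENNReal.ofReal (Real.log (len Y n k) -
        Real.log (len Y (n + s) ((k * 2 ^ s + j : ℕ) : ℤ))) ≤ D Y n (n + s) := by
  set I : Finset (ℕ × ℕ) := Finset.range (2 ^ n) ×ˢ Finset.range (2 ^ s) with hI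
  set C : ℕ × ℕ → Set ℝ := fun x => Ico (((x.1 * 2 ^ s + x.2 : ℕ) : ℝ) / 2 ^ (n + s))
    ((((x.1 * 2 ^ s + x.2 : ℕ) : ℝ) + 1) / 2 ^ (n + s)) with hC
  have hmem : ∀ x ∈ I, x.1 < 2 ^ n ∧ x.2 < 2 ^ s := fun x hx => by
    rw [hI, Finset.mem_product, Finset.mem_range, Finset.mem_range] at hx
    exact hx
  have hp : (0 : ℝ) < 2 ^ (n + s) := by positivity
  have hdis : Set.PairwiseDisjoint (I : Set (ℕ × ℕ)) C := by
    intro x hx y hy hne
    rw [Function.onFun, Set.disjoint_left]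
    intro w hwx hwy
    apply hne
    have h1 := Cel_idx_m (n + s) _ hwx
    rw [Cel_idx_m (n + s) _ hwy] at h1
    have h2 := Cel_idx_n n s x.1 x.2 (hmem x hx).2 hwx
    rw [Cel_idx_n n s y.1 y.2 (hmem y hy).2 hwy] at h2
    have h3 : y.1 = x.1 := by exact_mod_cast h2
    have h4 : y.1 * 2 ^ s + y.2 = x.1 * 2 ^ s + x.2 := by exact_mod_cast h1
    rw [h3] at h4
    exact Prod.ext h3.symm (by omega)
  have hval : ∀ x ∈ I, ∫⁻ w in C x, ENNReal.ofReal (lam Y (n + s) w - lam Y n w) =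
      (2 : ℝ≥0∞)⁻¹ ^ (n + s) * ENNReal.ofReal (Real.log (len Y n x.1) -
        Real.log (len Y (n + s) ((x.1 * 2 ^ s + x.2 : ℕ) : ℤ))) := by
    intro x hx
    have h1 : ∫⁻ w in C x, ENNReal.ofReal (lam Y (n + s) w - lam Y n w) =
        ∫⁻ _ in C x, ENNReal.ofReal (Real.log (len Y n x.1) -
          Real.log (len Y (n + s) ((x.1 * 2 ^ s + x.2 : ℕ) : ℤ))) := by
      refine setLIntegral_congr_fun measurableSet_Ico fun w hw => ?_
      have e1 := Cel_idx_m (n + s) _ hw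
      have e2 := Cel_idx_n n s x.1 x.2 (hmem x hx).2 hw
      show ENNReal.ofReal (lam Y (n + s) w - lam Y n w) = _
      unfold lam
      rw [e1, e2]
      congr 1
      ring
    rw [h1, setLIntegral_const, mul_comm]
    congr 1
    rw [hC, Real.volume_Ico]
    have h2 : (((x.1 * 2 ^ s + x.2 : ℕ) : ℝ) + 1) / 2 ^ (n + s) -
        ((x.1 * 2 ^ s + x.2 : ℕ) : ℝ) / 2 ^ (n + s) = (2⁻¹ : ℝ) ^ (n + s) := by
      rw [← sub_div, add_sub_cancel_left, inv_pow, one_div]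
    rw [h2, ENNReal.ofReal_pow (by norm_num), ENNReal.ofReal_inv_of_pos (by norm_num),
      ENNReal.ofReal_ofNat]
  rw [← Finset.sum_product', ← Finset.sum_congr rfl hval,
    ← lintegral_biUnion_finset hdis (fun x _ => measurableSet_Ico)]
  refine lintegral_mono_set ?_
  intro w hw
  rw [Set.mem_iUnion₂] at hw
  obtain ⟨x, hx, hw⟩ := hw
  obtain ⟨h1, h2⟩ := hmem x hx
  have h3 : x.1 * 2 ^ s + x.2 + 1 ≤ 2 ^ (n + s) := by
    have h4 : (x.1 + 1) * 2 ^ s ≤ 2 ^ n * 2 ^ s := Nat.mul_le_mul_right _ h1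
    rw [pow_add]
    have h5 : (x.1 + 1) * 2 ^ s = x.1 * 2 ^ s + 2 ^ s := by ring
    omega
  refine ⟨le_trans (by positivity) hw.1, lt_of_lt_of_le hw.2 ?_⟩
  rw [div_le_one hp]
  exact_mod_cast h3

end Pool.Agent.H.MP_4bdd60_an.LP
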