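import Mathlib

/-!
# MP_4bdd60_an: few cells are long compared with their distance to the left end

PLAN (80 lines, Mathlib only).  `S 0 = 0`, `S` strictly increasing on `[0, N]`.  Call `j` bad if `S j < 15 * (S (j+1) - S j)`.
(1) For a bad `j ≥ 1` one has `S (j+1) > (16/15) S j`, so `log S (j+1) - log S j ≥ log (16/15) ≥ 1/16`
(`Real.one_sub_inv_le_log_of_pos`).  By induction on `N ≥ j₀` the number of bad `j` in `[j₀, N)` is
at most `16 * (log S N - log S j₀)`.
(2) `log S N ≤ log T`.  For `j < j₀` one has `S (j+1) - S j ≤ S j₀`, hence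
`log T - log S j₀ ≤ log T - log (S (j+1) - S j)`; sum over `j < j₀`:
`j₀ * (log T - log S j₀) ≤ ∑_{j<j₀} (log T - log (S (j+1) - S j)) ≤ ∑_{j<N} ...` (all terms are `≥ 0` since
`S (j+1) - S j ≤ S N ≤ T`).
(3) number of bad `j < N` `≤ j₀ + 16 * (log T - log S j₀) ≤ j₀ + 16 / j₀ * ∑_{j<N} ...`.
-/

set_option autoImplicit false

namespace Pool.Agent.H.MP_4bdd60_an.LP

private theorem mono_aux (S : ℕ → ℝ) (N : ℕ) (hS : ∀ j < N, S j < S (j + 1)) (i : ℕ) :
    ∀ k, i ≤ k → k ≤ N → S i ≤ S k := by
  intro k hik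
  induction k, hik using Nat.le_induction with
  | base => intro _; exact le_rfl
  | succ k _ ih =>
    intro hk
    exact (ih (by omega)).trans (hS k (by omega)).le

theorem bad_count (S : ℕ → ℝ) (h0 : S 0 = 0) (N j₀ : ℕ) (hS : ∀ j < N, S j < S (j + 1))
    (hj : 1 ≤ j₀) (hN : j₀ ≤ N) {T : ℝ} (hT : S N ≤ T) :
    (((Finset.range N).filter (fun j => S j < 15 * (S (j + 1) - S j))).card : ℝ) ≤
      j₀ + 16 / j₀ * ∑ j ∈ Finset.range N, (Real.log T - Real.log (S (j + 1) - S j)) := by
  classical
  have hmono := mono_aux S N hS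
  have hnn : ∀ k, k ≤ N → 0 ≤ S k := fun k hk => by
    have := hmono 0 k (Nat.zero_le k) hk
    rw [h0] at this
    exact this
  have hpos : ∀ k, 1 ≤ k → k ≤ N → 0 < S k := fun k hk1 hk => by
    have h1 := hS 0 (by omega)
    rw [h0] at h1
    exact lt_of_lt_of_le h1 (hmono 1 k hk1 hk)
  have hSN : 0 < S N := hpos N (by omega) le_rfl
  have hT0 : 0 < T := lt_of_lt_of_le hSN hT
  -- the count above `j₀`
  have hstep : ∀ k, 1 ≤ k → k < N → S k < 15 * (S (k + 1) - S k) →
      (1 : ℝ) ≤ 16 * (Real.log (S (k + 1)) - Real.log (S k)) := by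
    intro k hk1 hk hb
    have h1 := hpos k hk1 hk.le
    have h2 := hpos (k + 1) (by omega) hk
    rw [← Real.log_div h2.ne' h1.ne']
    have h3 := Real.one_sub_inv_le_log_of_pos (div_pos h2 h1)
    rw [inv_div] at h3
    have h4 : S k / S (k + 1) ≤ 15 / 16 := by
      rw [div_le_div_iff₀ h2 (by norm_num)]
      linarith
    linarith
  have hcount : ∀ k, j₀ ≤ k → k ≤ N →
      (((Finset.range k).filter (fun j => S j < 15 * (S (j + 1) - S j))).card : ℝ) ≤
        j₀ + 16 * (Real.log (S k) - Real.log (S j₀)) := by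
    intro k hk
    induction k, hk using Nat.le_induction with
    | base =>
      intro _
      rw [sub_self, mul_zero, add_zero]
      have := Finset.card_filter_le (Finset.range j₀) (fun j => S j < 15 * (S (j + 1) - S j))
      rw [Finset.card_range] at this
      exact_mod_cast this
    | succ k hk ih =>
      intro hkN
      have h1 := ih (by omega)
      rw [Finset.range_add_one, Finset.filter_insert]
      have h2 : Real.log (S k) ≤ Real.log (S (k + 1)) :=
        Real.log_le_log (hpos k (by omega) (by omega)) (hS k (by omega)).le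
      split_ifs with hb
      · rw [Finset.card_insert_of_notMem (by simp)]
        have h3 := hstep k (by omega) (by omega) hb
        push_cast
        linarith
      · linarith
  have h1 := hcount N hN le_rfl
  -- the cells below `j₀`
  have hcell : ∀ j, j < N → 0 < S (j + 1) - S j := fun j hjN => sub_pos.2 (hS j hjN)
  have h2 : ∑ j ∈ Finset.range j₀, (Real.log T - Real.log (S j₀)) ≤
      ∑ j ∈ Finset.range j₀, (Real.log T - Real.log (S (j + 1) - S j)) := by
    refine Finset.sum_le_sum fun j hj' => ?_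
    have hjj : j < j₀ := Finset.mem_range.1 hj'
    have h3 : S (j + 1) - S j ≤ S j₀ := by
      have h4 := hmono (j + 1) j₀ (by omega) hN
      have h5 := hnn j (by omega)
      linarith
    have h6 := Real.log_le_log (hcell j (by omega)) h3
    linarith
  have h3 : ∑ j ∈ Finset.range j₀, (Real.log T - Real.log (S (j + 1) - S j)) ≤
      ∑ j ∈ Finset.range N, (Real.log T - Real.log (S (j + 1) - S j)) := by
    refine Finset.sum_le_sum_of_subset_of_nonneg (Finset.range_mono hN) fun j hj' _ => ?_
    have hjN : j < N := Finset.mem_range.1 hj'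
    have h4 : S (j + 1) - S j ≤ T := by
      have h5 := hmono (j + 1) N (by omega) le_rfl
      have h6 := hnn j (by omega)
      linarith
    exact sub_nonneg.2 (Real.log_le_log (hcell j hjN) h4)
  rw [Finset.sum_const, Finset.card_range, nsmul_eq_mul] at h2
  have hj0 : (0 : ℝ) < j₀ := by exact_mod_cast (show 0 < j₀ by omega)
  have h4 : Real.log T - Real.log (S j₀) ≤
      (∑ j ∈ Finset.range N, (Real.log T - Real.log (S (j + 1) - S j))) / j₀ := by
    rw [le_div_iff₀ hj0, mul_comm]
    exact h2.trans h3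
  have h5 : Real.log (S N) ≤ Real.log T := Real.log_le_log hSN hT
  have h6 : 16 / (j₀ : ℝ) * ∑ j ∈ Finset.range N, (Real.log T - Real.log (S (j + 1) - S j)) =
      16 * ((∑ j ∈ Finset.range N, (Real.log T - Real.log (S (j + 1) - S j))) / j₀) := by
    ring
  rw [h6]
  linarith

end Pool.Agent.H.MP_4bdd60_an.LP
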