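import Mathlib
import Pool.Agent.H.MP_4bdd60_an.V.Df
import Pool.Agent.H.MP_4bdd60_an.V.Cou
import Pool.Agent.H.MP_4bdd60_an.V.Cel

/-!
# MP_4bdd60_an: volume of the set where two levels are not separated

PLAN (150 lines).  Put `m = n + s`, `m ≥ n + 6`.  Fix `k < 2^n` and the interval `I = [k/2^n, (k+1)/2^n)`; its middle
half consists of the cells number `i₀ + j`, `j < N = 2^(s-1)`, `i₀ = k * 2^s + 2^(s-2)`, of level `m`
(`(k + 1/4)/2^n = i₀/2^m`).  Left: `S j = Y ((i₀ + j)/2^m) - Y (i₀/2^m)` (strictly increasing for `j ≤ N` by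
`Inc.lt`).  If `w` is in the cell
number `i₀ + j` then `gapL Y n w ≥ S j` and `len Y m (idx m w) = S (j+1) - S j`, so `¬ (15 * len ≤ gapL)` implies that
`j` is bad in the sense of `bad_count`, whose `T` is `len Y n k` and `j₀ = 2^(s-6)`.  So the volume of the bad set in
`I` is at most `2⁻¹^m * (j₀ + 16/j₀ * Σ)`, and the sum over `k` is bounded with `sum_cells_le`.
Right: the same with `S j = Y ((i₀ + N)/2^m) - Y ((i₀ + N - j)/2^m)`.
-/

set_option autoImplicit false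

namespace Pool.Agent.H.MP_4bdd60_an.LP

open MeasureTheory Set Filter Topology
open scoped ENNReal

private noncomputable def BadL_S (Y : ℝ → ℝ) (m a j : ℕ) : ℝ :=
  Y (((a + j : ℕ) : ℝ) / 2 ^ m) - Y ((a : ℝ) / 2 ^ m)

private theorem BadL_len (Y : ℝ → ℝ) (m a j : ℕ) :
    len Y m ((a + j : ℕ) : ℤ) = BadL_S Y m a (j + 1) - BadL_S Y m a j := by
  unfold len BadL_S
  have h1 : (((a + j : ℕ) : ℤ) : ℝ) + 1 = ((a + (j + 1) : ℕ) : ℝ) := by
    push_cast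
    ring
  have h2 : (((a + j : ℕ) : ℤ) : ℝ) = ((a + j : ℕ) : ℝ) := by
    push_cast
    ring
  rw [h1, h2]
  ring

private theorem BadL_sum (s : Finset ℕ) (f : ℕ → ℝ) :
    ENNReal.ofReal (∑ i ∈ s, f i) ≤ ∑ i ∈ s, ENNReal.ofReal (f i) := by
  classical
  induction s using Finset.induction_on with
  | empty => simp
  | insert a s ha ih =>
    rw [Finset.sum_insert ha, Finset.sum_insert ha]
    exact ENNReal.ofReal_add_le.trans (add_le_add le_rfl ih)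

private theorem BadL_sub {Y : ℝ → ℝ} (h : Monotone Y) (n q : ℕ) :
    ((Ico (0:ℝ) 1 ∩ mid n) ∩
      {w | gapL Y n w < 15 * len Y (n + (q + 6)) (idx (n + (q + 6)) w)}) ⊆
    ⋃ k ∈ Finset.range (2 ^ n), ⋃ j ∈ (Finset.range (2 ^ (q + 5))).filter (fun j =>
      BadL_S Y (n + (q + 6)) (k * 2 ^ (q + 6) + 2 ^ (q + 4)) j <
        15 * (BadL_S Y (n + (q + 6)) (k * 2 ^ (q + 6) + 2 ^ (q + 4)) (j + 1) -
          BadL_S Y (n + (q + 6)) (k * 2 ^ (q + 6) + 2 ^ (q + 4)) j)),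
      Ico (((k * 2 ^ (q + 6) + 2 ^ (q + 4) + j : ℕ) : ℝ) / 2 ^ (n + (q + 6)))
        ((((k * 2 ^ (q + 6) + 2 ^ (q + 4) + j : ℕ) : ℝ) + 1) / 2 ^ (n + (q + 6))) := by
  rintro w ⟨⟨hw, hmid⟩, hbad⟩
  obtain ⟨k, hk⟩ := Int.eq_ofNat_of_zero_le (idx_nonneg n hw.1)
  obtain ⟨i, hi⟩ := Int.eq_ofNat_of_zero_le (idx_nonneg (n + (q + 6)) hw.1)
  have hkr : (idx n w : ℝ) = (k : ℝ) := by rw [hk]; simp
  have hir : (idx (n + (q + 6)) w : ℝ) = (i : ℝ) := by rw [hi]; simp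
  have hk2 : k < 2 ^ n := by
    have h1 := idx_add_one_le n hw.2
    rw [hkr] at h1
    have h2 : k + 1 ≤ 2 ^ n := by exact_mod_cast h1
    omega
  obtain ⟨hm1, hm2⟩ := hmid
  rw [hkr] at hm1 hm2
  have hp4 : (0 : ℝ) < 2 ^ (q + 4) := by positivity
  have e6 : (2 : ℝ) ^ (q + 6) = 4 * 2 ^ (q + 4) := by ring
  have e5 : (2 : ℝ) ^ (q + 5) = 2 * 2 ^ (q + 4) := by ring
  have hwm : w * 2 ^ (n + (q + 6)) = w * 2 ^ n * (4 * 2 ^ (q + 4)) := by
    rw [← e6, pow_add]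
    ring
  have hlow : k * 2 ^ (q + 6) + 2 ^ (q + 4) ≤ i := by
    have h1 : ((k * 2 ^ (q + 6) + 2 ^ (q + 4) : ℕ) : ℤ) ≤ idx (n + (q + 6)) w := by
      unfold idx
      rw [Int.le_floor, hwm]
      push_cast
      rw [e6]
      nlinarith
    rw [hi] at h1
    exact_mod_cast h1
  have hhigh : i < k * 2 ^ (q + 6) + 2 ^ (q + 4) + 2 ^ (q + 5) := by
    have h1 : idx (n + (q + 6)) w < ((k * 2 ^ (q + 6) + 2 ^ (q + 4) + 2 ^ (q + 5) : ℕ) : ℤ) := by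
      unfold idx
      rw [Int.floor_lt, hwm]
      push_cast
      rw [e6, e5]
      nlinarith
    rw [hi] at h1
    exact_mod_cast h1
  obtain ⟨j, rfl⟩ := Nat.exists_eq_add_of_le hlow
  have hj : j < 2 ^ (q + 5) := by omega
  refine mem_iUnion₂.2 ⟨k, Finset.mem_range.2 hk2, mem_iUnion₂.2 ⟨j, Finset.mem_filter.2
    ⟨Finset.mem_range.2 hj, ?_⟩, ?_⟩⟩
  · have h1 : gapL Y n w < 15 * len Y (n + (q + 6)) (idx (n + (q + 6)) w) := hbad
    rw [hi] at h1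
    have h2 := BadL_len Y (n + (q + 6)) (k * 2 ^ (q + 6) + 2 ^ (q + 4)) j
    have h3 : len Y (n + (q + 6)) ((k * 2 ^ (q + 6) + 2 ^ (q + 4) + j : ℕ) : ℤ) =
        BadL_S Y (n + (q + 6)) (k * 2 ^ (q + 6) + 2 ^ (q + 4)) (j + 1) -
          BadL_S Y (n + (q + 6)) (k * 2 ^ (q + 6) + 2 ^ (q + 4)) j := h2
    rw [← h3]
    refine lt_of_le_of_lt ?_ h1
    unfold BadL_S gapL
    rw [hkr]
    have h4 : ((k : ℝ) + 1 / 4) / 2 ^ n =
        ((k * 2 ^ (q + 6) + 2 ^ (q + 4) : ℕ) : ℝ) / 2 ^ (n + (q + 6)) := by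
      rw [div_eq_div_iff (by positivity) (by positivity)]
      push_cast
      ring
    rw [h4]
    have h5 := idx_le (n + (q + 6)) w
    rw [hir] at h5
    have h6 := h h5
    linarith
  · constructor
    · have h5 := idx_le (n + (q + 6)) w
      rw [hir] at h5
      exact h5
    · have h5 := lt_idx (n + (q + 6)) w
      rw [hir] at h5
      exact h5

private theorem BadL_vol (m i : ℕ) :
    volume (Ico ((i : ℝ) / 2 ^ m) (((i : ℝ) + 1) / 2 ^ m)) = (2 : ℝ≥0∞)⁻¹ ^ m := by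
  rw [Real.volume_Ico]
  have h1 : ((i : ℝ) + 1) / 2 ^ m - (i : ℝ) / 2 ^ m = (2⁻¹ : ℝ) ^ m := by
    rw [inv_pow]
    ring
  rw [h1, ENNReal.ofReal_pow (by norm_num), ENNReal.ofReal_inv_of_pos (by norm_num)]
  norm_num

private theorem BadL_card {Y : ℝ → ℝ} (h : Inc Y) (n q k : ℕ) (hk : k < 2 ^ n) :
    ((((Finset.range (2 ^ (q + 5))).filter (fun j =>
      BadL_S Y (n + (q + 6)) (k * 2 ^ (q + 6) + 2 ^ (q + 4)) j <
        15 * (BadL_S Y (n + (q + 6)) (k * 2 ^ (q + 6) + 2 ^ (q + 4)) (j + 1) -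
          BadL_S Y (n + (q + 6)) (k * 2 ^ (q + 6) + 2 ^ (q + 4)) j))).card : ℕ) : ℝ≥0∞) ≤
      2 ^ q + ENNReal.ofReal (16 / 2 ^ q) * ∑ j ∈ Finset.range (2 ^ (q + 6)),
        ENNReal.ofReal (Real.log (len Y n k) -
          Real.log (len Y (n + (q + 6)) ((k * 2 ^ (q + 6) + j : ℕ) : ℤ))) := by
  have e6 : (2 : ℕ) ^ (q + 6) = 4 * 2 ^ (q + 4) := by ring
  have e5 : (2 : ℕ) ^ (q + 5) = 2 * 2 ^ (q + 4) := by ring
  have hnm : (2 : ℕ) ^ (n + (q + 6)) = 2 ^ n * (4 * 2 ^ (q + 4)) := by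
    rw [← e6, pow_add]
  have hend : k * 2 ^ (q + 6) + 2 ^ (q + 4) + 2 ^ (q + 5) ≤ (k + 1) * 2 ^ (q + 6) := by
    rw [e6, e5]
    have h1 : (k + 1) * (4 * 2 ^ (q + 4)) = k * (4 * 2 ^ (q + 4)) + 4 * 2 ^ (q + 4) := by ring
    rw [h1]
    have h2 : 0 < 2 ^ (q + 4) := by positivity
    omega
  have hend2 : (k + 1) * 2 ^ (q + 6) ≤ 2 ^ (n + (q + 6)) := by
    rw [pow_add 2 n]
    exact Nat.mul_le_mul_right _ hk
  have hb := bad_count (BadL_S Y (n + (q + 6)) (k * 2 ^ (q + 6) + 2 ^ (q + 4)))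
    (by unfold BadL_S; simp) (2 ^ (q + 5)) (2 ^ q) (by
      intro j hj
      unfold BadL_S
      have h1 : Y (((k * 2 ^ (q + 6) + 2 ^ (q + 4) + j : ℕ) : ℝ) / 2 ^ (n + (q + 6))) <
          Y (((k * 2 ^ (q + 6) + 2 ^ (q + 4) + (j + 1) : ℕ) : ℝ) / 2 ^ (n + (q + 6))) := by
        refine h.lt (by positivity) ?_ ?_
        · refine div_lt_div_of_pos_right ?_ (by positivity)
          exact_mod_cast Nat.lt_succ_self _
        · rw [div_le_one (by positivity)]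
          have h2 : k * 2 ^ (q + 6) + 2 ^ (q + 4) + (j + 1) ≤ 2 ^ (n + (q + 6)) := by omega
          exact_mod_cast h2
      linarith) Nat.one_le_two_pow (Nat.pow_le_pow_right (by norm_num) (by omega))
    (T := len Y n k) (by
      unfold BadL_S len
      have h1 : Y (((k * 2 ^ (q + 6) + 2 ^ (q + 4) + 2 ^ (q + 5) : ℕ) : ℝ) / 2 ^ (n + (q + 6))) ≤
          Y ((((k : ℤ) : ℝ) + 1) / 2 ^ n) := by
        refine h.mono ?_
        rw [div_le_div_iff₀ (by positivity) (by positivity), pow_add (2 : ℝ) n (q + 6)]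
        have h2 : ((k * 2 ^ (q + 6) + 2 ^ (q + 4) + 2 ^ (q + 5) : ℕ) : ℝ) ≤
            ((k : ℝ) + 1) * 2 ^ (q + 6) := by exact_mod_cast hend
        have h3 : (0 : ℝ) < 2 ^ n := by positivity
        rw [Int.cast_natCast]
        nlinarith
      have h4 : Y (((k : ℤ) : ℝ) / 2 ^ n) ≤
          Y (((k * 2 ^ (q + 6) + 2 ^ (q + 4) : ℕ) : ℝ) / 2 ^ (n + (q + 6))) := by
        refine h.mono ?_
        rw [div_le_div_iff₀ (by positivity) (by positivity), pow_add (2 : ℝ) n (q + 6)]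
        have h2 : (k : ℝ) * 2 ^ (q + 6) ≤ ((k * 2 ^ (q + 6) + 2 ^ (q + 4) : ℕ) : ℝ) := by
          push_cast
          have : (0 : ℝ) < 2 ^ (q + 4) := by positivity
          linarith
        have h3 : (0 : ℝ) < 2 ^ n := by positivity
        rw [Int.cast_natCast]
        nlinarith
      linarith)
  have hb2 := ENNReal.ofReal_le_ofReal hb
  rw [ENNReal.ofReal_natCast] at hb2
  refine hb2.trans (ENNReal.ofReal_add_le.trans (add_le_add (le_of_eq ?_) ?_))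
  · rw [ENNReal.ofReal_natCast]
    push_cast
    rfl
  · rw [ENNReal.ofReal_mul (by positivity)]
    have h7 : (16 : ℝ) / ((2 ^ q : ℕ) : ℝ) = 16 / 2 ^ q := by push_cast; rfl
    rw [h7]
    refine mul_le_mul' le_rfl ((BadL_sum _ _).trans ?_)
    have h8 : ∀ j, BadL_S Y (n + (q + 6)) (k * 2 ^ (q + 6) + 2 ^ (q + 4)) (j + 1) -
        BadL_S Y (n + (q + 6)) (k * 2 ^ (q + 6) + 2 ^ (q + 4)) j =
        len Y (n + (q + 6)) ((k * 2 ^ (q + 6) + (2 ^ (q + 4) + j) : ℕ) : ℤ) := by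
      intro j
      rw [← BadL_len, Nat.add_assoc]
    rw [Finset.sum_congr rfl (fun j _ => by rw [h8 j])]
    have h9 := Finset.sum_Ico_eq_sum_range (fun j => ENNReal.ofReal (Real.log (len Y n k) -
          Real.log (len Y (n + (q + 6)) ((k * 2 ^ (q + 6) + j : ℕ) : ℤ))))
      (2 ^ (q + 4)) (2 ^ (q + 4) + 2 ^ (q + 5))
    rw [Nat.add_sub_cancel_left] at h9
    rw [← h9]
    refine Finset.sum_le_sum_of_subset ?_
    intro j hj
    rw [Finset.mem_range]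
    have h10 := (Finset.mem_Ico.1 hj).2
    have h2 : 0 < 2 ^ (q + 4) := by positivity
    omega

theorem vol_badL {Y : ℝ → ℝ} (h : Inc Y) (n s : ℕ) (hs : 6 ≤ s) :
    volume ((Ico (0:ℝ) 1 ∩ mid n) ∩ {w | gapL Y n w < 15 * len Y (n + s) (idx (n + s) w)}) ≤
      (2 : ℝ≥0∞)⁻¹ ^ 6 + 2 ^ 10 * (2 : ℝ≥0∞)⁻¹ ^ s * D Y n (n + s) := by
  obtain ⟨q, rfl⟩ : ∃ q, s = q + 6 := ⟨s - 6, by omega⟩
  refine (measure_mono (BadL_sub h.mono n q)).trans ?_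
  refine (measure_biUnion_finset_le _ _).trans ?_
  have h2 : ∀ m : ℕ, (2 : ℝ≥0∞) ^ m * (2 : ℝ≥0∞)⁻¹ ^ m = 1 := by
    intro m
    rw [← mul_pow, ENNReal.mul_inv_cancel (by norm_num) (by norm_num), one_pow]
  have hc : ENNReal.ofReal (16 / 2 ^ q) = 2 ^ 10 * (2 : ℝ≥0∞)⁻¹ ^ (q + 6) := by
    have h3 : (16 : ℝ) / 2 ^ q = 2 ^ 10 * (2⁻¹ : ℝ) ^ (q + 6) := by
      rw [pow_add, inv_pow]
      ring
    rw [h3, ENNReal.ofReal_mul (by positivity), ENNReal.ofReal_pow (by norm_num),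
      ENNReal.ofReal_pow (by norm_num), ENNReal.ofReal_inv_of_pos (by norm_num)]
    norm_num
  calc ∑ k ∈ Finset.range (2 ^ n), volume (⋃ j ∈ (Finset.range (2 ^ (q + 5))).filter (fun j =>
      BadL_S Y (n + (q + 6)) (k * 2 ^ (q + 6) + 2 ^ (q + 4)) j <
        15 * (BadL_S Y (n + (q + 6)) (k * 2 ^ (q + 6) + 2 ^ (q + 4)) (j + 1) -
          BadL_S Y (n + (q + 6)) (k * 2 ^ (q + 6) + 2 ^ (q + 4)) j)),
      Ico (((k * 2 ^ (q + 6) + 2 ^ (q + 4) + j : ℕ) : ℝ) / 2 ^ (n + (q + 6)))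
        ((((k * 2 ^ (q + 6) + 2 ^ (q + 4) + j : ℕ) : ℝ) + 1) / 2 ^ (n + (q + 6))))
      ≤ ∑ k ∈ Finset.range (2 ^ n), (2 ^ q + ENNReal.ofReal (16 / 2 ^ q) *
          ∑ j ∈ Finset.range (2 ^ (q + 6)), ENNReal.ofReal (Real.log (len Y n k) -
            Real.log (len Y (n + (q + 6)) ((k * 2 ^ (q + 6) + j : ℕ) : ℤ)))) *
              (2 : ℝ≥0∞)⁻¹ ^ (n + (q + 6)) := by
        refine Finset.sum_le_sum fun k hk => ?_
        refine (measure_biUnion_finset_le _ _).trans ?_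
        rw [Finset.sum_congr rfl (fun j _ => BadL_vol (n + (q + 6))
          (k * 2 ^ (q + 6) + 2 ^ (q + 4) + j)), Finset.sum_const, nsmul_eq_mul]
        exact mul_le_mul' (BadL_card h n q k (Finset.mem_range.1 hk)) le_rfl
    _ = ∑ k ∈ Finset.range (2 ^ n), (2 : ℝ≥0∞) ^ q * (2 : ℝ≥0∞)⁻¹ ^ (n + (q + 6)) +
        ENNReal.ofReal (16 / 2 ^ q) * ∑ k ∈ Finset.range (2 ^ n),
          ∑ j ∈ Finset.range (2 ^ (q + 6)), (2 : ℝ≥0∞)⁻¹ ^ (n + (q + 6)) *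
            ENNReal.ofReal (Real.log (len Y n k) -
            Real.log (len Y (n + (q + 6)) ((k * 2 ^ (q + 6) + j : ℕ) : ℤ))) := by
        rw [Finset.mul_sum, ← Finset.sum_add_distrib]
        refine Finset.sum_congr rfl fun k _ => ?_
        rw [add_mul, ← Finset.mul_sum]
        ring
    _ ≤ (2 : ℝ≥0∞)⁻¹ ^ 6 + 2 ^ 10 * (2 : ℝ≥0∞)⁻¹ ^ (q + 6) * D Y n (n + (q + 6)) := by
        refine add_le_add (le_of_eq ?_) ?_
        · rw [Finset.sum_const, Finset.card_range, nsmul_eq_mul, pow_add, pow_add]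
          have h4 := h2 n
          have h5 := h2 q
          push_cast
          calc (2 : ℝ≥0∞) ^ n * (2 ^ q * ((2 : ℝ≥0∞)⁻¹ ^ n * ((2 : ℝ≥0∞)⁻¹ ^ q * (2 : ℝ≥0∞)⁻¹ ^ 6)))
              = ((2 : ℝ≥0∞) ^ n * (2 : ℝ≥0∞)⁻¹ ^ n) * ((2 : ℝ≥0∞) ^ q * (2 : ℝ≥0∞)⁻¹ ^ q) *
                (2 : ℝ≥0∞)⁻¹ ^ 6 := by ring
            _ = (2 : ℝ≥0∞)⁻¹ ^ 6 := by rw [h4, h5, one_mul, one_mul]
        · rw [hc]
          exact mul_le_mul' le_rfl (sum_cells_le Y n (q + 6))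

end Pool.Agent.H.MP_4bdd60_an.LP
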