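import Mathlib
import Pool.Agent.H.MP_4bdd60_an.V.Df
import Pool.Agent.H.MP_4bdd60_an.V.Cou
import Pool.Agent.H.MP_4bdd60_an.V.Cel

/-!
# MP_4bdd60_an: volume of the set where two levels are not separated

PLAN (150 lines).  Put `m = n + s`, `m ≥ n + 6`.  Fix `k < 2^n` and the interval `I = [k/2^n, (k+1)/2^n)`; its middle
half consists of the cells number `i₀ + j`, `j < N = 2^(s-1)`, `i₀ = k * 2^s + 2^(s-2)`, of level `m`
(`(k + 1/4)/2^n = i₀/2^m`).  Left: `S j = Y ((i₀ + j)/2^m) - Y (i₀/2^m)` (strictly increasing for `j ≤ N` by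
`Inc.lt`).  If `w` is in the cell
number `i₀ + j` then `gapL Y n w ≥ S j` and `len Y m (idx m w) = S (j+1) - S j`, so `¬ (15 * len ≤ gapL)` implies that
`j` is bad in the sense of `bad_count`, whose `T` is `len Y n k` and `j₀ = 2^(s-6)`.  So the volume of the bad set in
`I` is at most `2⁻¹^m * (j₀ + 16/j₀ * Σ)`, and the sum over `k` is bounded with `sum_cells_le`.
Right: the same with `S j = Y ((i₀ + N)/2^m) - Y ((i₀ + N - j)/2^m)`.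
-/

set_option autoImplicit false

namespace Pool.Agent.H.MP_4bdd60_an.LP

open MeasureTheory Set Filter Topology
open scoped ENNReal

/-- the distances to the right end -/
private noncomputable def BadR_S (Y : ℝ → ℝ) (m a j : ℕ) : ℝ :=
  Y ((a : ℝ) / 2 ^ m) - Y (((a : ℝ) - j) / 2 ^ m)

private theorem BadR_diff (Y : ℝ → ℝ) (m i j : ℕ) :
    BadR_S Y m (i + 1 + j) (j + 1) - BadR_S Y m (i + 1 + j) j = len Y m (i : ℤ) := by
  unfold BadR_S len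
  push_cast
  have e1 : (i : ℝ) + 1 + j - (j + 1) = i := by ring
  have e2 : (i : ℝ) + 1 + j - j = i + 1 := by ring
  rw [e1, e2]
  ring

private theorem BadR_pos {Y : ℝ → ℝ} (h : Inc Y) {m i : ℕ} (hi : i + 1 ≤ 2 ^ m) :
    0 < len Y m (i : ℤ) := by
  unfold len
  have h2 : (0 : ℝ) < 2 ^ m := by positivity
  refine sub_pos.2 (h.lt (by positivity) ?_ ?_)
  · rw [div_lt_div_iff_of_pos_right h2]
    exact lt_add_one _
  · rw [div_le_one h2]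
    have h3 : ((i + 1 : ℕ) : ℝ) ≤ ((2 ^ m : ℕ) : ℝ) := by exact_mod_cast hi
    push_cast at h3
    push_cast
    exact h3

private theorem BadR_sum {ι : Type*} (s : Finset ι) (f : ι → ℝ) :
    ENNReal.ofReal (∑ j ∈ s, f j) ≤ ∑ j ∈ s, ENNReal.ofReal (f j) := by
  classical
  induction s using Finset.induction_on with
  | empty => simp
  | insert a s ha ih =>
    rw [Finset.sum_insert ha, Finset.sum_insert ha]
    exact ENNReal.ofReal_add_le.trans (add_le_add le_rfl ih)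

private theorem BadR_lt {n t k j : ℕ} (hk : k < 2 ^ n) (hj : j < 48 * 2 ^ t) :
    ∃ i, k * 2 ^ (t + 6) + 48 * 2 ^ t = i + 1 + j ∧ i + 1 ≤ 2 ^ (n + (t + 6)) := by
  have h1 : (k + 1) * 2 ^ (t + 6) ≤ 2 ^ n * 2 ^ (t + 6) := Nat.mul_le_mul_right _ hk
  have h2 : 2 ^ (t + 6) = 64 * 2 ^ t := by rw [pow_add]; ring
  rw [add_mul, one_mul, ← pow_add, h2] at h1
  refine ⟨k * 2 ^ (t + 6) + 48 * 2 ^ t - 1 - j, by omega, ?_⟩
  rw [h2]
  omega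

private theorem BadR_count {Y : ℝ → ℝ} (h : Inc Y) (n t k : ℕ) (hk : k < 2 ^ n) :
    (((Finset.range (32 * 2 ^ t)).filter (fun j =>
      BadR_S Y (n + (t + 6)) (k * 2 ^ (t + 6) + 48 * 2 ^ t) j <
        15 * (BadR_S Y (n + (t + 6)) (k * 2 ^ (t + 6) + 48 * 2 ^ t) (j + 1) -
          BadR_S Y (n + (t + 6)) (k * 2 ^ (t + 6) + 48 * 2 ^ t) j))).card : ℝ≥0∞) ≤
      ((2 ^ t : ℕ) : ℝ≥0∞) + 16 / ((2 ^ t : ℕ) : ℝ≥0∞) *
        ∑ j ∈ Finset.range (2 ^ (t + 6)), ENNReal.ofReal (Real.log (len Y n k) -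
          Real.log (len Y (n + (t + 6)) ((k * 2 ^ (t + 6) + j : ℕ) : ℤ))) := by
  have hu : 1 ≤ 2 ^ t := Nat.one_le_two_pow
  have h64 : 2 ^ (t + 6) = 64 * 2 ^ t := by rw [pow_add]; ring
  have hS : ∀ j < 32 * 2 ^ t, BadR_S Y (n + (t + 6)) (k * 2 ^ (t + 6) + 48 * 2 ^ t) j <
      BadR_S Y (n + (t + 6)) (k * 2 ^ (t + 6) + 48 * 2 ^ t) (j + 1) := by
    intro j hj
    obtain ⟨i, hi, hi2⟩ := BadR_lt (t := t) (j := j) hk (by omega)
    rw [hi]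
    have h1 := BadR_diff Y (n + (t + 6)) i j
    have h2 := BadR_pos h hi2
    linarith
  have hT : BadR_S Y (n + (t + 6)) (k * 2 ^ (t + 6) + 48 * 2 ^ t) (32 * 2 ^ t) ≤
      len Y n (k : ℤ) := by
    unfold BadR_S len
    have hn : (0 : ℝ) < 2 ^ n := by positivity
    have ht : (0 : ℝ) < 2 ^ t := by positivity
    have hm : (2 : ℝ) ^ (n + (t + 6)) = 2 ^ n * (64 * 2 ^ t) := by
      rw [pow_add, pow_add 2 t 6]
      ring
    refine sub_le_sub (h.mono ?_) (h.mono ?_)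
    · rw [hm, div_le_div_iff₀ (by positivity) hn]
      push_cast
      rw [pow_add (2 : ℝ) t 6]
      have h3 : (0 : ℝ) ≤ 2 ^ n * 2 ^ t := by positivity
      nlinarith
    · rw [hm, div_le_div_iff₀ hn (by positivity)]
      push_cast
      rw [pow_add (2 : ℝ) t 6]
      have h3 : (0 : ℝ) ≤ 2 ^ n * 2 ^ t := by positivity
      nlinarith
  have h1 := bad_count (BadR_S Y (n + (t + 6)) (k * 2 ^ (t + 6) + 48 * 2 ^ t))
    (by unfold BadR_S; simp) (32 * 2 ^ t) (2 ^ t) hS hu (by omega) hT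
  have h2 := ENNReal.ofReal_le_ofReal h1
  rw [ENNReal.ofReal_natCast] at h2
  refine h2.trans (ENNReal.ofReal_add_le.trans (add_le_add (le_of_eq (ENNReal.ofReal_natCast _)) ?_))
  rw [ENNReal.ofReal_mul (by positivity),
    ENNReal.ofReal_div_of_pos (by exact_mod_cast (show 0 < 2 ^ t by omega)),
    ENNReal.ofReal_natCast, ENNReal.ofReal_ofNat]
  refine mul_le_mul_right ?_ _
  refine (BadR_sum _ _).trans ?_
  obtain ⟨F, hF⟩ : ∃ F : ℕ → ℝ≥0∞, F = fun j => ENNReal.ofReal (Real.log (len Y n (k : ℤ)) -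
      Real.log (len Y (n + (t + 6)) ((k * 2 ^ (t + 6) + j : ℕ) : ℤ))) := ⟨_, rfl⟩
  have h3 : ∀ j ∈ Finset.range (32 * 2 ^ t), ENNReal.ofReal (Real.log (len Y n (k : ℤ)) -
      Real.log (BadR_S Y (n + (t + 6)) (k * 2 ^ (t + 6) + 48 * 2 ^ t) (j + 1) -
        BadR_S Y (n + (t + 6)) (k * 2 ^ (t + 6) + 48 * 2 ^ t) j)) = F (48 * 2 ^ t - 1 - j) := by
    intro j hj
    rw [Finset.mem_range] at hj
    have h4 : k * 2 ^ (t + 6) + 48 * 2 ^ t = k * 2 ^ (t + 6) + (48 * 2 ^ t - 1 - j) + 1 + j := by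
      omega
    rw [h4, BadR_diff, hF]
  rw [Finset.sum_congr rfl h3]
  have h5 : Set.InjOn (fun j => 48 * 2 ^ t - 1 - j) (Finset.range (32 * 2 ^ t) : Set ℕ) := by
    intro a ha b hb hab
    rw [Finset.mem_coe, Finset.mem_range] at ha hb
    have hab' : 48 * 2 ^ t - 1 - a = 48 * 2 ^ t - 1 - b := hab
    omega
  have h6 := Finset.sum_image (f := F) h5
  show ∑ x ∈ Finset.range (32 * 2 ^ t), F (48 * 2 ^ t - 1 - x) ≤ _
  rw [← h6]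
  show _ ≤ ∑ j ∈ Finset.range (2 ^ (t + 6)), ENNReal.ofReal (Real.log (len Y n (k : ℤ)) -
      Real.log (len Y (n + (t + 6)) ((k * 2 ^ (t + 6) + j : ℕ) : ℤ)))
  have h7 : (∑ j ∈ Finset.range (2 ^ (t + 6)), ENNReal.ofReal (Real.log (len Y n (k : ℤ)) -
      Real.log (len Y (n + (t + 6)) ((k * 2 ^ (t + 6) + j : ℕ) : ℤ)))) =
      ∑ j ∈ Finset.range (2 ^ (t + 6)), F j := by rw [hF]
  rw [h7]
  refine Finset.sum_le_sum_of_subset ?_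
  intro x hx
  obtain ⟨j, hj, rfl⟩ := Finset.mem_image.1 hx
  rw [Finset.mem_range] at hj ⊢
  omega

private theorem BadR_mem {Y : ℝ → ℝ} (h : Inc Y) (n t : ℕ) {w : ℝ} (hw : w ∈ Ico (0 : ℝ) 1)
    (hmid : w ∈ mid n)
    (hg : gapR Y n w < 15 * len Y (n + (t + 6)) (idx (n + (t + 6)) w)) :
    ∃ k ∈ Finset.range (2 ^ n), ∃ j ∈ (Finset.range (32 * 2 ^ t)).filter (fun j =>
      BadR_S Y (n + (t + 6)) (k * 2 ^ (t + 6) + 48 * 2 ^ t) j <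
        15 * (BadR_S Y (n + (t + 6)) (k * 2 ^ (t + 6) + 48 * 2 ^ t) (j + 1) -
          BadR_S Y (n + (t + 6)) (k * 2 ^ (t + 6) + 48 * 2 ^ t) j)),
      w ∈ Ico ((((k * 2 ^ (t + 6) + 48 * 2 ^ t : ℕ) : ℝ) - (j + 1)) / 2 ^ (n + (t + 6)))
        ((((k * 2 ^ (t + 6) + 48 * 2 ^ t : ℕ) : ℝ) - j) / 2 ^ (n + (t + 6))) := by
  obtain ⟨k, hk⟩ := Int.eq_ofNat_of_zero_le (idx_nonneg n hw.1)
  obtain ⟨i, hi⟩ := Int.eq_ofNat_of_zero_le (idx_nonneg (n + (t + 6)) hw.1)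
  have hk1 : k < 2 ^ n := by
    have h1 := idx_add_one_le n hw.2
    rw [hk] at h1
    have h2 : ((k + 1 : ℕ) : ℝ) ≤ ((2 ^ n : ℕ) : ℝ) := by
      push_cast
      push_cast at h1
      exact h1
    exact_mod_cast h2
  have hm1 : 1 / 4 ≤ w * 2 ^ n - (k : ℝ) := by
    have h1 := hmid.1
    rw [hk] at h1
    push_cast at h1
    exact h1
  have hm2 : w * 2 ^ n - (k : ℝ) < 3 / 4 := by
    have h1 := hmid.2
    rw [hk] at h1
    push_cast at h1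
    exact h1
  have hM : (0 : ℝ) < 2 ^ (n + (t + 6)) := by positivity
  have hi1 : (i : ℝ) ≤ w * 2 ^ (n + (t + 6)) := by
    have h1 := idx_le (n + (t + 6)) w
    rw [hi, div_le_iff₀ hM] at h1
    push_cast at h1
    exact h1
  have hi2 : w * 2 ^ (n + (t + 6)) < (i : ℝ) + 1 := by
    have h1 := lt_idx (n + (t + 6)) w
    rw [hi, lt_div_iff₀ hM] at h1
    push_cast at h1
    exact h1
  have hm : w * 2 ^ (n + (t + 6)) = w * 2 ^ n * (64 * 2 ^ t) := by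
    rw [pow_add, pow_add 2 t 6]
    ring
  have ht : (0 : ℝ) < 2 ^ t := by positivity
  have h64 : 2 ^ (t + 6) = 64 * 2 ^ t := by rw [pow_add]; ring
  have hlo : k * 2 ^ (t + 6) + 16 * 2 ^ t < i + 1 := by
    have h1 : ((k : ℝ) + 1 / 4) * (64 * 2 ^ t) ≤ w * 2 ^ n * (64 * 2 ^ t) :=
      mul_le_mul_of_nonneg_right (by linarith) (by positivity)
    have h2 : ((k * 2 ^ (t + 6) + 16 * 2 ^ t : ℕ) : ℝ) < ((i + 1 : ℕ) : ℝ) := by
      push_cast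
      rw [pow_add (2 : ℝ) t 6]
      have h3 : (k : ℝ) * (2 ^ t * 2 ^ 6) + 16 * 2 ^ t = ((k : ℝ) + 1 / 4) * (64 * 2 ^ t) := by ring
      rw [h3]
      rw [hm] at hi2
      linarith
    exact_mod_cast h2
  have hhi : i < k * 2 ^ (t + 6) + 48 * 2 ^ t := by
    have h1 : w * 2 ^ n * (64 * 2 ^ t) < ((k : ℝ) + 3 / 4) * (64 * 2 ^ t) :=
      mul_lt_mul_of_pos_right (by linarith) (by positivity)
    have h2 : ((i : ℕ) : ℝ) < ((k * 2 ^ (t + 6) + 48 * 2 ^ t : ℕ) : ℝ) := by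
      push_cast
      rw [pow_add (2 : ℝ) t 6]
      have h3 : (k : ℝ) * (2 ^ t * 2 ^ 6) + 48 * 2 ^ t = ((k : ℝ) + 3 / 4) * (64 * 2 ^ t) := by ring
      rw [h3]
      rw [hm] at hi1
      linarith
    exact_mod_cast h2
  obtain ⟨j, hj⟩ : ∃ j, k * 2 ^ (t + 6) + 48 * 2 ^ t = i + 1 + j :=
    ⟨k * 2 ^ (t + 6) + 48 * 2 ^ t - (i + 1), by omega⟩
  have hj2 : j < 32 * 2 ^ t := by omega
  have ha : (((k : ℝ) + 3 / 4) / 2 ^ n) = ((i + 1 + j : ℕ) : ℝ) / 2 ^ (n + (t + 6)) := by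
    rw [← hj, div_eq_div_iff (by positivity) hM.ne']
    push_cast
    rw [pow_add (2 : ℝ) n (t + 6), pow_add (2 : ℝ) t 6]
    ring
  refine ⟨k, Finset.mem_range.2 hk1, j, Finset.mem_filter.2 ⟨Finset.mem_range.2 hj2, ?_⟩, ?_, ?_⟩
  · rw [hj, BadR_diff]
    rw [hi] at hg
    refine lt_of_le_of_lt ?_ hg
    unfold BadR_S gapR
    rw [hk]
    push_cast
    have h1 : (i : ℝ) + 1 + j - j = i + 1 := by ring
    rw [h1]
    push_cast at ha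
    rw [ha]
    refine sub_le_sub le_rfl (h.mono ?_)
    rw [le_div_iff₀ hM]
    exact hi2.le
  · rw [hj, div_le_iff₀ hM]
    push_cast
    linarith
  · rw [hj, lt_div_iff₀ hM]
    push_cast
    linarith

private theorem BadR_vol (a : ℝ) (j m : ℕ) :
    volume (Ico ((a - (j + 1)) / 2 ^ m) ((a - j) / 2 ^ m)) = (2 : ℝ≥0∞)⁻¹ ^ m := by
  rw [Real.volume_Ico]
  have h1 : (a - j) / 2 ^ m - (a - (j + 1)) / 2 ^ m = (2⁻¹ : ℝ) ^ m := by
    rw [← sub_div, inv_pow, ← one_div]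
    congr 1
    ring
  rw [h1, ENNReal.ofReal_pow (by positivity), ENNReal.ofReal_inv_of_pos (by positivity),
    ENNReal.ofReal_ofNat]

theorem vol_badR {Y : ℝ → ℝ} (h : Inc Y) (n s : ℕ) (hs : 6 ≤ s) :
    volume ((Ico (0:ℝ) 1 ∩ mid n) ∩ {w | gapR Y n w < 15 * len Y (n + s) (idx (n + s) w)}) ≤
      (2 : ℝ≥0∞)⁻¹ ^ 6 + 2 ^ 10 * (2 : ℝ≥0∞)⁻¹ ^ s * D Y n (n + s) := by
  obtain ⟨t, rfl⟩ := Nat.exists_eq_add_of_le' hs
  obtain ⟨bd, hbd⟩ : ∃ bd : ℕ → Finset ℕ, bd = fun k => (Finset.range (32 * 2 ^ t)).filter (fun j =>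
      BadR_S Y (n + (t + 6)) (k * 2 ^ (t + 6) + 48 * 2 ^ t) j <
        15 * (BadR_S Y (n + (t + 6)) (k * 2 ^ (t + 6) + 48 * 2 ^ t) (j + 1) -
          BadR_S Y (n + (t + 6)) (k * 2 ^ (t + 6) + 48 * 2 ^ t) j)) := ⟨_, rfl⟩
  have hsub : (Ico (0:ℝ) 1 ∩ mid n) ∩
      {w | gapR Y n w < 15 * len Y (n + (t + 6)) (idx (n + (t + 6)) w)} ⊆
      ⋃ k ∈ Finset.range (2 ^ n), ⋃ j ∈ bd k,
        Ico ((((k * 2 ^ (t + 6) + 48 * 2 ^ t : ℕ) : ℝ) - (j + 1)) / 2 ^ (n + (t + 6)))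
          ((((k * 2 ^ (t + 6) + 48 * 2 ^ t : ℕ) : ℝ) - j) / 2 ^ (n + (t + 6))) := by
    rintro w ⟨⟨h1, h2⟩, h3⟩
    obtain ⟨k, hk, j, hj, hw⟩ := BadR_mem h n t h1 h2 h3
    refine Set.mem_biUnion hk ?_
    refine Set.mem_biUnion (x := j) ?_ hw
    rw [hbd]
    exact hj
  have h1 : volume (⋃ k ∈ Finset.range (2 ^ n), ⋃ j ∈ bd k,
        Ico ((((k * 2 ^ (t + 6) + 48 * 2 ^ t : ℕ) : ℝ) - (j + 1)) / 2 ^ (n + (t + 6)))
          ((((k * 2 ^ (t + 6) + 48 * 2 ^ t : ℕ) : ℝ) - j) / 2 ^ (n + (t + 6)))) ≤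
      ∑ k ∈ Finset.range (2 ^ n), (2 : ℝ≥0∞)⁻¹ ^ (n + (t + 6)) * ((bd k).card : ℝ≥0∞) := by
    refine (measure_biUnion_finset_le _ _).trans (Finset.sum_le_sum fun k _ => ?_)
    refine (measure_biUnion_finset_le _ _).trans (le_of_eq ?_)
    rw [Finset.sum_congr rfl fun j _ => BadR_vol _ j _, Finset.sum_const, nsmul_eq_mul, mul_comm]
  refine (measure_mono hsub).trans (h1.trans ?_)
  have h2 : ∀ k ∈ Finset.range (2 ^ n), (2 : ℝ≥0∞)⁻¹ ^ (n + (t + 6)) * ((bd k).card : ℝ≥0∞) ≤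
      (2 : ℝ≥0∞)⁻¹ ^ (n + (t + 6)) * ((2 ^ t : ℕ) : ℝ≥0∞) + 16 / ((2 ^ t : ℕ) : ℝ≥0∞) *
        ∑ j ∈ Finset.range (2 ^ (t + 6)), (2 : ℝ≥0∞)⁻¹ ^ (n + (t + 6)) *
          ENNReal.ofReal (Real.log (len Y n k) -
          Real.log (len Y (n + (t + 6)) ((k * 2 ^ (t + 6) + j : ℕ) : ℤ))) := by
    intro k hk
    have h3 := BadR_count h n t k (Finset.mem_range.1 hk)
    have h4 : (bd k).card = ((Finset.range (32 * 2 ^ t)).filter (fun j =>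
      BadR_S Y (n + (t + 6)) (k * 2 ^ (t + 6) + 48 * 2 ^ t) j <
        15 * (BadR_S Y (n + (t + 6)) (k * 2 ^ (t + 6) + 48 * 2 ^ t) (j + 1) -
          BadR_S Y (n + (t + 6)) (k * 2 ^ (t + 6) + 48 * 2 ^ t) j))).card := by rw [hbd]
    rw [h4, ← Finset.mul_sum, mul_left_comm, ← mul_add]
    exact mul_le_mul_right h3 _
  refine (Finset.sum_le_sum h2).trans ?_
  rw [Finset.sum_add_distrib, Finset.sum_const, Finset.card_range, nsmul_eq_mul, ← Finset.mul_sum]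
  have h20 : (2 : ℝ≥0∞) ≠ 0 := by norm_num
  have h2t : (2 : ℝ≥0∞) ≠ ∞ := by norm_num
  have hinv : ∀ r : ℕ, (2 : ℝ≥0∞) ^ r * (2 : ℝ≥0∞)⁻¹ ^ r = 1 := by
    intro r
    rw [← mul_pow, ENNReal.mul_inv_cancel h20 h2t, one_pow]
  refine add_le_add (le_of_eq ?_) ?_
  · push_cast
    calc (2 : ℝ≥0∞) ^ n * ((2 : ℝ≥0∞)⁻¹ ^ (n + (t + 6)) * 2 ^ t)
        = ((2 : ℝ≥0∞) ^ n * (2 : ℝ≥0∞)⁻¹ ^ n) * ((2 : ℝ≥0∞) ^ t * (2 : ℝ≥0∞)⁻¹ ^ t) *
            (2 : ℝ≥0∞)⁻¹ ^ 6 := by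
          rw [pow_add, pow_add]
          ring
      _ = (2 : ℝ≥0∞)⁻¹ ^ 6 := by rw [hinv, hinv, one_mul, one_mul]
  · have h5 : (16 : ℝ≥0∞) / ((2 ^ t : ℕ) : ℝ≥0∞) = 2 ^ 10 * (2 : ℝ≥0∞)⁻¹ ^ (t + 6) := by
      push_cast
      rw [div_eq_mul_inv, ENNReal.inv_pow]
      calc (16 : ℝ≥0∞) * (2 : ℝ≥0∞)⁻¹ ^ t
          = 16 * (2 : ℝ≥0∞)⁻¹ ^ t * ((2 : ℝ≥0∞) ^ 6 * (2 : ℝ≥0∞)⁻¹ ^ 6) := by
            rw [hinv, mul_one]
        _ = 2 ^ 10 * (2 : ℝ≥0∞)⁻¹ ^ (t + 6) := by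
            rw [pow_add]
            ring
    rw [h5]
    exact mul_le_mul_right (sum_cells_le Y n (t + 6)) _

end Pool.Agent.H.MP_4bdd60_an.LP
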