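import Mathlib

/-!
# MP_4bdd60_an: the stretched gauge at a radius

PLAN (90 lines, Mathlib only; model: `Bri_freq` in U/Bri.lean, which has the power gauge `C * r ^ α`).
Put `C' = max C 1`, `g r = exp (-(log (1/r))^θ)`, `t = 2 C' g r`.  As `r → 0+`: `log (1/r) → ∞`, so `g r → 0+` and
`t → 0+` (within `Ioi 0`).  `ofReal (C g r) < ofReal t` is clear.  From `t = 2 C' g r`:
`(log (1/r))^θ = log (2C'/t) = log (2C') + log (1/t) ≤ 2 log (1/t)` as soon as `t ≤ 1/(2C')`, so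
`log (1/r) ≤ (2 log (1/t))^p = 2^p (log (1/t))^p` with `p = 1/θ` (`Real.rpow_le_rpow`, `Real.rpow_mul`), and
`log 2 ≤ 1 ≤ (log (1/t))^p` as soon as `t ≤ exp (-1)`.  So
`r / 2 = exp (-log (1/r) - log 2) ≥ exp (-(2^p + 1) (log (1/t))^p)`.
-/

set_option autoImplicit false

open Set Filter Topology
open scoped ENNReal Real

namespace Pool.Agent.H.MP_4bdd60_an

theorem Bri_str {C θ : ℝ} (hθ : 0 < θ) {P : ℝ → Prop} (hP : ∃ᶠ r in 𝓝[>] (0:ℝ), P r) {B : ℝ}
    (hB : 2 ^ (1 / θ) + 1 ≤ B) {Q : ℝ → Prop}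
    (h : ∀ r t : ℝ, 0 < r → 0 < t → t ≤ 1 → P r →
      ENNReal.ofReal (C * Real.exp (-(Real.log (1 / r) ^ θ))) < ENNReal.ofReal t →
      Real.exp (-(B * Real.log (1 / t) ^ (1 / θ))) ≤ r / 2 → Q t) :
    ∃ᶠ t in 𝓝[>] (0:ℝ), Q t := by
  obtain ⟨C', hC'⟩ : ∃ C', C' = max C 1 := ⟨_, rfl⟩
  have hC1 : 1 ≤ C' := by rw [hC']; exact le_max_right _ _
  have hCC : C ≤ C' := by rw [hC']; exact le_max_left _ _
  have hC0 : 0 < C' := by linarith
  have hL : Tendsto (fun r : ℝ => Real.log (1 / r)) (𝓝[>] 0) atTop := by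
    have h1 := tendsto_neg_atBot_atTop.comp Real.tendsto_log_nhdsGT_zero
    refine h1.congr ?_
    intro r
    show -Real.log r = Real.log (1 / r)
    rw [one_div, Real.log_inv]
  have hg : Tendsto (fun r : ℝ => Real.exp (-(Real.log (1 / r) ^ θ))) (𝓝[>] 0) (𝓝 0) :=
    Real.tendsto_exp_neg_atTop_nhds_zero.comp ((tendsto_rpow_atTop hθ).comp hL)
  have ht0 : Tendsto (fun r : ℝ => 2 * C' * Real.exp (-(Real.log (1 / r) ^ θ))) (𝓝[>] 0) (𝓝 0) := by
    have h1 := hg.const_mul (2 * C')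
    rw [mul_zero] at h1
    exact h1
  have ht : Tendsto (fun r : ℝ => 2 * C' * Real.exp (-(Real.log (1 / r) ^ θ))) (𝓝[>] 0)
      (𝓝[>] 0) := by
    rw [tendsto_nhdsWithin_iff]
    refine ⟨ht0, Eventually.of_forall fun r => ?_⟩
    show 0 < 2 * C' * Real.exp (-(Real.log (1 / r) ^ θ))
    positivity
  refine ht.frequently ?_
  have hmin : 0 < min (1 / (2 * C')) (Real.exp (-1)) := lt_min (by positivity) (Real.exp_pos _)
  have ev1 : ∀ᶠ r in 𝓝[>] (0:ℝ), 2 * C' * Real.exp (-(Real.log (1 / r) ^ θ)) <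
      min (1 / (2 * C')) (Real.exp (-1)) := ht0.eventually (gt_mem_nhds hmin)
  have ev2 : ∀ᶠ r in 𝓝[>] (0:ℝ), 0 < r ∧ r < 1 := by
    filter_upwards [Ioo_mem_nhdsGT (show (0:ℝ) < 1 by norm_num)] with r hr
    exact hr
  refine ((hP.and_eventually ev1).and_eventually ev2).mono ?_
  rintro r ⟨⟨hPr, hr1⟩, hr0, hr2⟩
  obtain ⟨L, hLd⟩ : ∃ L, L = Real.log (1 / r) := ⟨_, rfl⟩
  rw [← hLd] at hr1 ⊢
  have hL0 : 0 < L := by
    rw [hLd]
    exact Real.log_pos (by rw [lt_div_iff₀ hr0]; linarith)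
  have hLp : 0 < L ^ θ := Real.rpow_pos_of_pos hL0 _
  have hp0 : 0 ≤ 1 / θ := by positivity
  obtain ⟨t, htd⟩ : ∃ t, t = 2 * C' * Real.exp (-(L ^ θ)) := ⟨_, rfl⟩
  rw [← htd] at hr1 ⊢
  have htpos : 0 < t := by rw [htd]; positivity
  have hlt : Real.log t = Real.log (2 * C') - L ^ θ := by
    rw [htd, Real.log_mul (by positivity) (Real.exp_pos _).ne', Real.log_exp]
    ring
  obtain ⟨T, hT⟩ : ∃ T, T = Real.log (1 / t) := ⟨_, rfl⟩
  have hTt : T = -Real.log t := by rw [hT, one_div, Real.log_inv]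
  have h1 : t < Real.exp (-1) := lt_of_lt_of_le hr1 (min_le_right _ _)
  have h2 : t < 1 / (2 * C') := lt_of_lt_of_le hr1 (min_le_left _ _)
  have h3 : 1 ≤ T := by
    have h4 := Real.log_lt_log htpos h1
    rw [Real.log_exp] at h4
    linarith
  have h5 : Real.log (2 * C') ≤ T := by
    have h4 := Real.log_lt_log htpos h2
    rw [one_div, Real.log_inv] at h4
    linarith
  have h6 : L ^ θ ≤ 2 * T := by linarith
  have h7 : L ≤ 2 ^ (1 / θ) * T ^ (1 / θ) := by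
    have h8 := Real.rpow_le_rpow hLp.le h6 hp0
    rw [← Real.rpow_mul hL0.le, mul_one_div_cancel hθ.ne', Real.rpow_one,
      Real.mul_rpow (by norm_num) (by linarith)] at h8
    exact h8
  have h9 : 1 ≤ T ^ (1 / θ) := Real.one_le_rpow h3 hp0
  have ht1 : t ≤ 1 := by
    have h10 : Real.exp (-1) ≤ 1 := by
      rw [Real.exp_le_one_iff]
      norm_num
    linarith
  refine h r t hr0 htpos ht1 hPr ?_ ?_
  · rw [← hLd, ENNReal.ofReal_lt_ofReal_iff htpos, htd]
    have h10 : 0 < Real.exp (-(L ^ θ)) := Real.exp_pos _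
    have h11 : C * Real.exp (-(L ^ θ)) ≤ C' * Real.exp (-(L ^ θ)) :=
      mul_le_mul_of_nonneg_right hCC h10.le
    have h12 : 0 < C' * Real.exp (-(L ^ θ)) := by positivity
    linarith
  · rw [← hT]
    have h10 : Real.exp (-L) = r := by
      rw [hLd, one_div, Real.log_inv, neg_neg, Real.exp_log hr0]
    have h11 : Real.exp (-Real.log 2) = 1 / 2 := by
      rw [Real.exp_neg, Real.exp_log (by norm_num), one_div]
    calc Real.exp (-(B * T ^ (1 / θ))) ≤ Real.exp (-L + -Real.log 2) := by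
          apply Real.exp_le_exp.mpr
          have h12 : (2 ^ (1 / θ) + 1) * T ^ (1 / θ) ≤ B * T ^ (1 / θ) :=
            mul_le_mul_of_nonneg_right hB (by linarith)
          have h13 := Real.log_two_lt_d9
          linarith
      _ = Real.exp (-L) * Real.exp (-Real.log 2) := Real.exp_add _ _
      _ = r / 2 := by rw [h10, h11]; ring

end Pool.Agent.H.MP_4bdd60_an
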