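import Mathlib
import Pool.Agent.H.MP_4bdd60_an.U.Bri
import Pool.Agent.H.MP_4bdd60_an.V.Bri

/-!
# MP_4bdd60_an: from a measure on the curve to a measure on the real line (stretched gauge)
-/

set_option autoImplicit false

open Set Filter Topology Metric MeasureTheory
open scoped ENNReal Real

namespace Pool.Agent.H.MP_4bdd60_an

/-- no atoms -/
theorem no_atomS {φ : ℂ → ℂ} {ν : Measure ℂ} {C θ : ℝ} (hθ : 0 < θ)
    (h1 : ∃ᶠ r in 𝓝[>] (0:ℝ), ∀ z ∈ sphere (0 : ℂ) 1,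
      ν (φ '' (sphere 0 1 ∩ closedBall z r)) ≤
        ENNReal.ofReal (C * Real.exp (-(Real.log (1 / r) ^ θ))))
    {z : ℂ} (hz : z ∈ sphere (0 : ℂ) 1) : ν {φ z} = 0 := by
  have h3 : Tendsto (fun r : ℝ => ENNReal.ofReal (C * Real.exp (-(Real.log (1 / r) ^ θ))))
      (𝓝[>] 0) (𝓝 0) := by
    have hL : Tendsto (fun r : ℝ => Real.log (1 / r)) (𝓝[>] 0) atTop := by
      have h1 := tendsto_neg_atBot_atTop.comp Real.tendsto_log_nhdsGT_zero
      refine h1.congr ?_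
      intro r
      show -Real.log r = Real.log (1 / r)
      rw [one_div, Real.log_inv]
    have hg : Tendsto (fun r : ℝ => Real.exp (-(Real.log (1 / r) ^ θ))) (𝓝[>] 0) (𝓝 0) :=
      Real.tendsto_exp_neg_atTop_nhds_zero.comp ((tendsto_rpow_atTop hθ).comp hL)
    have h4 := hg.const_mul C
    rw [mul_zero] at h4
    have h5 := ENNReal.tendsto_ofReal h4
    rwa [ENNReal.ofReal_zero] at h5
  have h6 : ν {φ z} ≤ 0 := by
    refine ge_of_tendsto_of_frequently h3 ?_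
    refine (h1.and_eventually self_mem_nhdsWithin).mono ?_
    rintro r ⟨hr, hr0⟩
    refine le_trans (measure_mono ?_) (hr z hz)
    rw [singleton_subset_iff]
    exact ⟨z, ⟨hz, mem_closedBall_self (le_of_lt hr0)⟩, rfl⟩
  exact le_antisymm h6 bot_le

theorem bridgeS {φ ψ : ℂ → ℂ} (hφc : ContinuousOn φ (closedBall 0 1))
    (hφi : InjOn φ (closedBall 0 1)) (ν : Measure ℂ) [IsProbabilityMeasure ν]
    (hν : ν (φ '' sphere 0 1)ᶜ = 0) {C θ δ : ℝ} (hθ : 0 < θ) (hδ : 0 < δ)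
    (h1 : ∀ z ∈ sphere (0 : ℂ) 1, ∀ r : ℝ, 0 < r → r < 1 / 2 →
      ν (φ '' (sphere 0 1 ∩ closedBall z r)) ≤ ENNReal.ofReal (C / Real.log (1 / r) ^ (1 + δ)))
    (h2 : ∀ z ∈ sphere (0 : ℂ) 1, ∀ r : ℝ, 0 < r → r < 1 / 2 →
      ν (ψ '' (sphere 0 1 ∩ closedBall z r)) ≤ ENNReal.ofReal (C / Real.log (1 / r) ^ (1 + δ)))
    (h3 : ∃ᶠ r in 𝓝[>] (0:ℝ), ∀ z ∈ sphere (0 : ℂ) 1,
      ν (φ '' (sphere 0 1 ∩ closedBall z r)) ≤
        ENNReal.ofReal (C * Real.exp (-(Real.log (1 / r) ^ θ))) ∧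
      ν (ψ '' (sphere 0 1 ∩ closedBall z r)) ≤
        ENNReal.ofReal (C * Real.exp (-(Real.log (1 / r) ^ θ))))
    {u0 : ℂ} {k0 : ℝ → ℝ} (hu0 : ‖u0‖ = 1) (hk : Continuous k0) (hki : Function.Injective k0)
    (hw : ∀ s : ℝ, ψ (u0 * cay (k0 s))⁻¹ = φ (cay s)) :
    ∃ (ν' : Measure ℝ) (B s : ℝ), IsProbabilityMeasure ν' ∧ 0 ≤ B ∧ 0 < s ∧ s < 1 ∧
      (∀ u v, u ≤ v → ∀ t : ℝ, 0 < t → t ≤ 1 → ENNReal.ofReal t ≤ ν' (Icc u v) →
        Real.exp (-(B * t ^ (-s))) ≤ v - u) ∧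
      (∀ u v, u ≤ v → ∀ t : ℝ, 0 < t → t ≤ 1 → ENNReal.ofReal t ≤ ν' (Icc u v) →
        Real.exp (-(B * t ^ (-s))) ≤ |k0 v - k0 u|) ∧
      ∃ᶠ t in 𝓝[>] (0:ℝ), ∀ u v, u ≤ v → ENNReal.ofReal t ≤ ν' (Icc u v) →
        Real.exp (-(B * Real.log (1 / t) ^ (1 / θ))) ≤ v - u ∧
        Real.exp (-(B * Real.log (1 / t) ^ (1 / θ))) ≤ |k0 v - k0 u| := by
  have hat : ∀ z ∈ sphere (0 : ℂ) 1, ν {φ z} = 0 := fun z hz =>
    no_atomS hθ (h3.mono fun r hr z hz => (hr z hz).1) hz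
  obtain ⟨ν', hp, ha, g1, g2⟩ := bridge_geo hφc hφi ν hν hat hu0 hk hki hw
  have hCs : 0 ≤ (max C 1) ^ (1 / (1 + δ)) :=
    Real.rpow_nonneg (le_trans zero_le_one (le_max_right _ _)) _
  have h2θ : (0 : ℝ) ≤ 2 ^ (1 / θ) := by positivity
  have hne : ∀ u v : ℝ, u ≤ v → ∀ t : ℝ, 0 < t → ENNReal.ofReal t ≤ ν' (Icc u v) → u < v := by
    intro u v huv t ht h
    refine lt_of_le_of_ne huv ?_
    rintro rfl
    rw [Icc_self, ha u, nonpos_iff_eq_zero, ENNReal.ofReal_eq_zero] at h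
    linarith
  have hkp : ∀ u v : ℝ, u < v → 0 < |k0 v - k0 u| := by
    intro u v h
    exact abs_pos.mpr (sub_ne_zero.mpr fun h0 => (ne_of_gt h) (hki h0))
  refine ⟨ν', (max C 1) ^ (1 / (1 + δ)) + 4 + 2 ^ (1 / θ), 1 / (1 + δ), hp, by positivity,
    by positivity, ?_, ?_, ?_, ?_⟩
  · rw [div_lt_one (by linarith)]
    linarith
  · intro u v huv t ht ht1 hm
    have huv' := hne u v huv t ht hm
    refine Bri_weak hδ ht ht1 (sub_pos.mpr huv') (fun h => ?_) (by linarith)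
    exact hm.trans ((g1 u v huv').trans (h1 _ (cay_mem u) _ (by linarith) h))
  · intro u v huv t ht ht1 hm
    have huv' := hne u v huv t ht hm
    have hp := hkp u v huv'
    refine Bri_weak hδ ht ht1 hp (fun h => ?_) (by linarith)
    exact hm.trans ((g2 u v huv').2.trans (h2 _ (g2 u v huv').1 _ (by linarith) h))
  · refine Bri_str (C := C) hθ h3 (B := (max C 1) ^ (1 / (1 + δ)) + 4 + 2 ^ (1 / θ))
      (by linarith) ?_
    intro r t hr ht ht1 hP hlt htr u v huv hm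
    have huv' := hne u v huv t ht hm
    have hp := hkp u v huv'
    constructor
    · refine htr.trans ?_
      by_contra hcon
      have h5 : 2 * (v - u) ≤ r := by linarith [not_le.mp hcon]
      have h6 : ν' (Icc u v) ≤ ENNReal.ofReal (C * Real.exp (-(Real.log (1 / r) ^ θ))) := by
        refine (g1 u v huv').trans (le_trans (measure_mono ?_) (hP _ (cay_mem u)).1)
        exact image_mono (inter_subset_inter_right _ (closedBall_subset_closedBall h5))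
      exact absurd (hm.trans h6) (not_le.mpr hlt)
    · refine htr.trans ?_
      by_contra hcon
      have h5 : 2 * |k0 v - k0 u| ≤ r := by linarith [not_le.mp hcon]
      have h6 : ν' (Icc u v) ≤ ENNReal.ofReal (C * Real.exp (-(Real.log (1 / r) ^ θ))) := by
        refine (g2 u v huv').2.trans (le_trans (measure_mono ?_) (hP _ (g2 u v huv').1).2)
        exact image_mono (inter_subset_inter_right _ (closedBall_subset_closedBall h5))
      exact absurd (hm.trans h6) (not_le.mpr hlt)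

end Pool.Agent.H.MP_4bdd60_an
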