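import Mathlib
import Pool.Agent.H.MP_4bdd60_an.U.Gau

/-!
# MP_4bdd60_an: levels with small averaged logarithms from a stretched gauge

PLAN (60 lines): like `Gau_log` in U/Gau.lean.  With `t ≥ (1/2)^(m+2)` and `t ≤ 1`:
`log (1/t) ≤ (m+2) log 2 ≤ 2 (m+1)`, so `B * (log (1/t))^p ≤ B * (2 (m+1))^p = 2^p B (m+1)^p`; use `Gau_D` with
`A = 2^p B (m+1)^p` and `1 ≤ (m+1)^p`.
-/

set_option autoImplicit false

namespace Pool.Agent.H.MP_4bdd60_an.LP

open MeasureTheory Set Filter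
open scoped ENNReal Topology

theorem Gau_str {Y : ℝ → ℝ} (m : ℕ) {B t p : ℝ} (hB : 0 ≤ B) (hp : 0 < p)
    (ht : (1 / 2 : ℝ) ^ (m + 2) ≤ t) (ht1 : t ≤ 1)
    (h : ∀ u v, 0 ≤ u → u ≤ v → v ≤ 1 → v - u = 1 / 2 ^ m →
      Real.exp (-(B * Real.log (1 / t) ^ p)) ≤ Y v - Y u) :
    D Y 0 m ≤ ENNReal.ofReal ((2 ^ p * B + |Real.log (Y 1 - Y 0)|) * ((m : ℝ) + 1) ^ p) := by
  have hpos : (0 : ℝ) < (1 / 2) ^ (m + 2) := by positivity
  have htp : 0 < t := lt_of_lt_of_le hpos ht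
  have h4 : (0 : ℝ) ≤ m := Nat.cast_nonneg m
  have hl0 : 0 ≤ Real.log (1 / t) := Real.log_nonneg (by rw [le_div_iff₀ htp]; linarith)
  have hl1 : Real.log (1 / t) ≤ 2 * ((m : ℝ) + 1) := by
    have h2 : Real.log ((1 / 2 : ℝ) ^ (m + 2)) ≤ Real.log t := Real.log_le_log hpos ht
    rw [Real.log_pow, one_div, Real.log_inv] at h2
    push_cast at h2
    have h3 : Real.log 2 ≤ 1 := by
      have := Real.log_two_lt_d9
      linarith
    have h6 : ((m : ℝ) + 2) * Real.log 2 ≤ ((m : ℝ) + 2) * 1 :=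
      mul_le_mul_of_nonneg_left h3 (by linarith)
    rw [one_div, Real.log_inv]
    linarith
  have hl2 : Real.log (1 / t) ^ p ≤ 2 ^ p * ((m : ℝ) + 1) ^ p := by
    rw [← Real.mul_rpow (by norm_num) (by linarith)]
    exact Real.rpow_le_rpow hl0 hl1 hp.le
  have h1 : D Y 0 m ≤
      ENNReal.ofReal (2 ^ p * B * ((m : ℝ) + 1) ^ p + |Real.log (Y 1 - Y 0)|) := by
    apply Gau_D
    intro u v hu huv hv hd
    refine le_trans (Real.exp_le_exp.mpr (neg_le_neg ?_)) (h u v hu huv hv hd)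
    have h2 := mul_le_mul_of_nonneg_left hl2 hB
    linarith
  refine h1.trans (ENNReal.ofReal_le_ofReal ?_)
  have h6 : 0 ≤ |Real.log (Y 1 - Y 0)| := abs_nonneg _
  have h5 : (1 : ℝ) ≤ ((m : ℝ) + 1) ^ p := Real.one_le_rpow (by linarith) hp.le
  nlinarith

end Pool.Agent.H.MP_4bdd60_an.LP
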