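import Mathlib
import Pool.Agent.H.MP_4bdd60_an.V.Df

/-!
# MP_4bdd60_an: small loops at a rich point
-/

set_option autoImplicit false

namespace Pool.Agent.H.MP_4bdd60_an.LP

open MeasureTheory Set Filter Topology
open scoped ENNReal

/-- the inner radius of the region of level `n` at `y` -/
noncomputable def rin (Y : ℝ → ℝ) (n : ℕ) (y : ℝ) : ℝ := min (gapL Y n y) (gapR Y n y) / 3

/-- the region of level `n` at `y` -/
def ann (Y : ℝ → ℝ) (n : ℕ) (y : ℝ) : Set (ℝ × ℝ) :=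
  box (Y y) (5 * len Y n (idx n y)) \ box (Y y) (rin Y n y)

theorem measurableSet_ann (Y : ℝ → ℝ) (n : ℕ) (y : ℝ) : MeasurableSet (ann Y n y) :=
  (measurableSet_box _ _).diff (measurableSet_box _ _)

theorem ann_disj {Y : ℝ → ℝ} {n m : ℕ} {y : ℝ} (h : Sp Y n m y) :
    Disjoint (ann Y n y) (ann Y m y) := by
  have h1 : 5 * len Y m (idx m y) ≤ rin Y n y := by
    unfold rin
    have := le_min h.1 h.2
    linarith
  rw [Set.disjoint_left]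
  intro z hz hz'
  apply hz.2
  obtain ⟨⟨h2, h3⟩, h4, h5⟩ := hz'.1
  refine ⟨⟨?_, ?_⟩, h4, ?_⟩
  · exact lt_of_le_of_lt (by linarith) h2
  · exact lt_of_lt_of_le h3 (by linarith)
  · exact lt_of_lt_of_le h5 h1

theorem in_annR {Y : ℝ → ℝ} {n : ℕ} {y x s t T : ℝ} (hTd : len Y n (idx n y) = T) (hT0 : 0 < T)
    (h1 : Y y - T ≤ x) (h2 : x ≤ Y y - gapL Y n y) (hg : 0 ≤ gapL Y n y) (hs1 : 1 ≤ s)
    (hs2 : s ≤ 2) (ht : t ∈ Ioo 0 T) : (x + s * t, t) ∈ ann Y n y := by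
  refine ⟨?_, ?_⟩
  · rw [hTd]
    exact in_boxR (by linarith) (by linarith) hs1 hs2 ht (by linarith)
  · rintro ⟨⟨h3, _⟩, _, h4⟩
    have h5 : rin Y n y ≤ gapL Y n y / 3 := by
      unfold rin
      have := min_le_left (gapL Y n y) (gapR Y n y)
      linarith
    have h3' : Y y - rin Y n y < x + s * t := h3
    have h4' : t < rin Y n y := h4
    have h6 : s * t ≤ 2 * t := mul_le_mul_of_nonneg_right hs2 ht.1.le
    linarith

theorem in_annL {Y : ℝ → ℝ} {n : ℕ} {y x s t T : ℝ} (hTd : len Y n (idx n y) = T) (hT0 : 0 < T)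
    (h1 : x ≤ Y y + T) (h2 : Y y + gapR Y n y ≤ x) (hg : 0 ≤ gapR Y n y) (hs1 : 1 ≤ s)
    (hs2 : s ≤ 2) (ht : t ∈ Ioo 0 T) : (x + -s * t, t) ∈ ann Y n y := by
  refine ⟨?_, ?_⟩
  · rw [hTd]
    exact in_boxL (by linarith) (by linarith) hs1 hs2 ht (by linarith)
  · rintro ⟨⟨_, h3⟩, _, h4⟩
    have h5 : rin Y n y ≤ gapR Y n y / 3 := by
      unfold rin
      have := min_le_right (gapL Y n y) (gapR Y n y)
      linarith
    have h3' : x + -s * t < Y y + rin Y n y := h3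
    have h4' : t < rin Y n y := h4
    have h6 : s * t ≤ 2 * t := mul_le_mul_of_nonneg_right hs2 ht.1.le
    linarith

/-- the loops of one level -/
theorem loop_level {Y₁ Y₂ : ℝ → ℝ} (h₁ : Inc Y₁) (h₂ : Inc Y₂) {β : ℝ≥0∞} {y : ℝ} {n : ℕ}
    (hGn : y ∈ Gd Y₁ Y₂ β n) {ρ₁ ρ₂ : ℝ × ℝ → ℝ≥0∞} (hρ₁ : Measurable ρ₁) (hρ₂ : Measurable ρ₂)
    {e L : ℝ≥0∞} (he0 : e ≠ 0) (he1 : e ≠ ∞) (hL0 : L ≠ 0) (hL1 : L ≠ ∞)
    (hLM : L⁻¹ * (4 * β) ≤ e / 32) (hI₁ : L * ∫⁻ z in ann Y₁ n y, ρ₁ z ^ 2 ≤ e / 64)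
    (hI₂ : L * ∫⁻ z in ann Y₂ n y, ρ₂ z ^ 2 ≤ e / 64) :
    ∃ c x s1 s2 : ℝ, (idx n y : ℝ) / 2 ^ n ≤ c ∧ c < y ∧ y < x ∧ x ≤ ((idx n y : ℝ) + 1) / 2 ^ n ∧
      1 ≤ s1 ∧ s1 ≤ 2 ∧ 1 ≤ s2 ∧ s2 ≤ 2 ∧
      ray ρ₁ (Y₁ c) s1 (Y₁ x - Y₁ c) ≤ e ∧ ray ρ₁ (Y₁ x) (-s1) (Y₁ x - Y₁ c) ≤ e ∧
      ray ρ₂ (Y₂ c) s2 (Y₂ x - Y₂ c) ≤ e ∧ ray ρ₂ (Y₂ x) (-s2) (Y₂ x - Y₂ c) ≤ e := by
  obtain ⟨⟨hyI, hmid⟩, hav⟩ := hGn
  have hy0 : 0 ≤ y := hyI.1
  have hy1 : y < 1 := hyI.2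
  have hav₁ : avg Y₁ n y ≤ 4 * β := (le_self_add.trans_lt hav).le
  have hav₂ : avg Y₂ n y ≤ 4 * β := (le_add_self.trans_lt hav).le
  have hp : (0 : ℝ) < 2 ^ n := by positivity
  set a : ℝ := (idx n y : ℝ) / 2 ^ n with ha
  set d : ℝ := 1 / 2 ^ n with hd
  have hd0 : 0 < d := by positivity
  have hb : ((idx n y : ℝ) + 1) / 2 ^ n = a + d := by rw [ha, hd]; ring
  have hay : a ≤ y := idx_le n y
  have hyb : y < a + d := by rw [← hb]; exact lt_idx n y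
  have ha0 : 0 ≤ a := by
    have : (0 : ℝ) ≤ (idx n y : ℝ) := by exact_mod_cast idx_nonneg n hy0
    positivity
  have hab1 : a + d ≤ 1 := by
    rw [← hb, div_le_one hp]
    exact idx_add_one_le n hy1
  have hy4 : a + d / 4 ≤ y := by
    have h1 : 1 / 4 ≤ y * 2 ^ n - idx n y := hmid.1
    have h2 : a + d / 4 = ((idx n y : ℝ) + 1 / 4) / 2 ^ n := by rw [ha, hd]; ring
    rw [h2, div_le_iff₀ hp]
    linarith
  have hy34 : y < a + 3 * d / 4 := by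
    have h1 : y * 2 ^ n - idx n y < 3 / 4 := hmid.2
    have h2 : a + 3 * d / 4 = ((idx n y : ℝ) + 3 / 4) / 2 ^ n := by rw [ha, hd]; ring
    rw [h2, lt_div_iff₀ hp]
    linarith
  -- lengths
  have hlen₁ : len Y₁ n (idx n y) = Y₁ (a + d) - Y₁ a := by unfold len; rw [hb]
  have hlen₂ : len Y₂ n (idx n y) = Y₂ (a + d) - Y₂ a := by unfold len; rw [hb]
  set T₁ : ℝ := len Y₁ n (idx n y) with hT₁
  set T₂ : ℝ := len Y₂ n (idx n y) with hT₂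
  have hT₁0 : 0 < T₁ := len_pos' h₁ n hy0 hy1
  have hT₂0 : 0 < T₂ := len_pos' h₂ n hy0 hy1
  -- quarters
  set A : Set ℝ := Ico a (a + d / 4) with hA
  set B : Set ℝ := Ico (a + 3 * d / 4) (a + d) with hB
  have hcell : cell n y = Ico a (a + d) := by unfold cell; rw [hb]
  have hAc : A ⊆ cell n y := by
    rw [hcell]; exact Ico_subset_Ico_right (by linarith)
  have hBc : B ⊆ cell n y := by
    rw [hcell]; exact Ico_subset_Ico_left (by linarith)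
  have hdE : ENNReal.ofReal (d / 4) = 4⁻¹ * (2 : ℝ≥0∞)⁻¹ ^ n := by
    have : d / 4 = 4⁻¹ * (2⁻¹ : ℝ) ^ n := by rw [hd, inv_pow]; ring
    rw [this, ENNReal.ofReal_mul (by norm_num), ENNReal.ofReal_pow (by norm_num),
      ENNReal.ofReal_inv_of_pos (by norm_num), ENNReal.ofReal_inv_of_pos (by norm_num)]
    norm_num
  have hvA : volume A = 4⁻¹ * (2 : ℝ≥0∞)⁻¹ ^ n := by
    rw [hA, Real.volume_Ico, ← hdE]; congr 1; ring
  have hvB : volume B = 4⁻¹ * (2 : ℝ≥0∞)⁻¹ ^ n := by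
    rw [hB, Real.volume_Ico, ← hdE]; congr 1; ring
  -- localised densities
  set σ₁ : ℝ × ℝ → ℝ≥0∞ := (ann Y₁ n y).indicator ρ₁ with hσ₁
  set σ₂ : ℝ × ℝ → ℝ≥0∞ := (ann Y₂ n y).indicator ρ₂ with hσ₂
  have hσm₁ : Measurable σ₁ := hρ₁.indicator (measurableSet_ann _ _ _)
  have hσm₂ : Measurable σ₂ := hρ₂.indicator (measurableSet_ann _ _ _)
  have hσI₁ : L * ∫⁻ z, σ₁ z ^ 2 ≤ e / 64 := by
    rw [hσ₁, lintegral_indicator_sq ρ₁ (measurableSet_ann _ _ _)]; exact hI₁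
  have hσI₂ : L * ∫⁻ z, σ₂ z ^ 2 ≤ e / 64 := by
    rw [hσ₂, lintegral_indicator_sq ρ₂ (measurableSet_ann _ _ _)]; exact hI₂
  have hfin : ∀ I : ℝ≥0∞, L * I ≤ e / 64 →
      (2 : ℝ≥0∞)⁻¹ ^ n * (L * I + L⁻¹ * (4 * β)) ≤ (2 : ℝ≥0∞)⁻¹ ^ n * (e / 64 + e / 32) := by
    intro I hI
    have h5 : L * I + L⁻¹ * (4 * β) ≤ e / 64 + e / 32 := add_le_add hI hLM
    gcongr
  have qA₁ := (quarterR' h₁ hσm₁ n hy0 hy1 (A := A) measurableSet_Ico hAc hav₁ L hL0 hL1).trans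
    (hfin _ hσI₁)
  have qA₂ := (quarterR' h₂ hσm₂ n hy0 hy1 (A := A) measurableSet_Ico hAc hav₂ L hL0 hL1).trans
    (hfin _ hσI₂)
  have qB₁ := (quarterL' h₁ hσm₁ n hy0 hy1 (A := B) measurableSet_Ico hBc hav₁ L hL0 hL1).trans
    (hfin _ hσI₁)
  have qB₂ := (quarterL' h₂ hσm₂ n hy0 hy1 (A := B) measurableSet_Ico hBc hav₂ L hL0 hL1).trans
    (hfin _ hσI₂)
  have hm₁ : Measurable Y₁ := h₁.mono.measurable
  have hsumA : ∫⁻ c in A, (rayR σ₁ (Y₁ c) T₁ + rayR σ₂ (Y₂ c) T₂) < (e / 2) * volume A := by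
    have hmm : Measurable (fun c => rayR σ₁ (Y₁ c) T₁) := (measurable_rayR hσm₁ T₁).comp hm₁
    rw [lintegral_add_left hmm, hvA]
    exact const_lt he0 he1 n qA₁ qA₂
  have hsumB : ∫⁻ x in B, (rayL σ₁ (Y₁ x) T₁ + rayL σ₂ (Y₂ x) T₂) < (e / 2) * volume B := by
    have hmm : Measurable (fun c => rayL σ₁ (Y₁ c) T₁) := (measurable_rayL hσm₁ T₁).comp hm₁
    rw [lintegral_add_left hmm, hvB]
    exact const_lt he0 he1 n qB₁ qB₂
  obtain ⟨c, hcA, hc⟩ := pick measurableSet_Ico _ _ hsumA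
  obtain ⟨x, hxB, hx⟩ := pick measurableSet_Ico _ _ hsumB
  have hhalf : e / 2 + e / 2 = e := ENNReal.add_halves e
  have hS₁ : rayR σ₁ (Y₁ c) T₁ + rayL σ₁ (Y₁ x) T₁ < e := by
    rw [← hhalf]
    exact ENNReal.add_lt_add (lt_of_le_of_lt le_self_add hc) (lt_of_le_of_lt le_self_add hx)
  have hS₂ : rayR σ₂ (Y₂ c) T₂ + rayL σ₂ (Y₂ x) T₂ < e := by
    rw [← hhalf]
    exact ENNReal.add_lt_add (lt_of_le_of_lt le_add_self hc) (lt_of_le_of_lt le_add_self hx)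
  obtain ⟨s₁, hs₁1, hs₁2, hlt₁⟩ := pick_slope hσm₁ _ _ _ hS₁
  obtain ⟨s₂, hs₂1, hs₂2, hlt₂⟩ := pick_slope hσm₂ _ _ _ hS₂
  -- order
  have hcy : c < y := lt_of_lt_of_le hcA.2 hy4
  have hyx : y < x := lt_of_lt_of_le hy34 hxB.1
  have hac : a ≤ c := hcA.1
  have hxb : x < a + d := hxB.2
  have m1 := h₁.mono hac
  have m2 := h₁.mono hcy.le
  have m3 := h₁.mono hyx.le
  have m4 := h₁.mono hxb.le
  have m5 := h₂.mono hac
  have m6 := h₂.mono hcy.le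
  have m7 := h₂.mono hyx.le
  have m8 := h₂.mono hxb.le
  -- the gaps
  have e4 : ((idx n y : ℝ) + 1 / 4) / 2 ^ n = a + d / 4 := by rw [ha, hd]; ring
  have e34 : ((idx n y : ℝ) + 3 / 4) / 2 ^ n = a + 3 * d / 4 := by rw [ha, hd]; ring
  have gL₁ : gapL Y₁ n y = Y₁ y - Y₁ (a + d / 4) := by unfold gapL; rw [e4]
  have gL₂ : gapL Y₂ n y = Y₂ y - Y₂ (a + d / 4) := by unfold gapL; rw [e4]
  have gR₁ : gapR Y₁ n y = Y₁ (a + 3 * d / 4) - Y₁ y := by unfold gapR; rw [e34]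
  have gR₂ : gapR Y₂ n y = Y₂ (a + 3 * d / 4) - Y₂ y := by unfold gapR; rw [e34]
  have p1 := h₁.mono hy4
  have p2 := h₂.mono hy4
  have p3 := h₁.mono hy34.le
  have p4 := h₂.mono hy34.le
  have p5 := h₁.mono (le_of_lt hcA.2)
  have p6 := h₂.mono (le_of_lt hcA.2)
  have p7 := h₁.mono hxB.1
  have p8 := h₂.mono hxB.1
  have p9 := h₁.mono hyb.le
  have p10 := h₂.mono hyb.le
  have p11 := h₁.mono hay
  have p12 := h₂.mono hay
  have b1 : ray σ₁ (Y₁ c) s₁ T₁ = ray ρ₁ (Y₁ c) s₁ T₁ :=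
    ray_indicator _ (fun t ht => in_annR hT₁.symm hT₁0 (by linarith) (by linarith) (by linarith)
      hs₁1 hs₁2 ht)
  have b2 : ray σ₁ (Y₁ x) (-s₁) T₁ = ray ρ₁ (Y₁ x) (-s₁) T₁ :=
    ray_indicator _ (fun t ht => in_annL hT₁.symm hT₁0 (by linarith) (by linarith) (by linarith)
      hs₁1 hs₁2 ht)
  have b3 : ray σ₂ (Y₂ c) s₂ T₂ = ray ρ₂ (Y₂ c) s₂ T₂ :=
    ray_indicator _ (fun t ht => in_annR hT₂.symm hT₂0 (by linarith) (by linarith) (by linarith)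
      hs₂1 hs₂2 ht)
  have b4 : ray σ₂ (Y₂ x) (-s₂) T₂ = ray ρ₂ (Y₂ x) (-s₂) T₂ :=
    ray_indicator _ (fun t ht => in_annL hT₂.symm hT₂0 (by linarith) (by linarith) (by linarith)
      hs₂1 hs₂2 ht)
  have hle₁ : Y₁ x - Y₁ c ≤ T₁ := by rw [hlen₁]; linarith
  have hle₂ : Y₂ x - Y₂ c ≤ T₂ := by rw [hlen₂]; linarith
  refine ⟨c, x, s₁, s₂, hac, hcy, hyx, by rw [hb]; exact hxb.le, hs₁1, hs₁2, hs₂1, hs₂2,
    ?_, ?_, ?_, ?_⟩
  · refine (ray_mono _ _ _ hle₁).trans ?_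
    rw [← b1]
    exact le_self_add.trans hlt₁.le
  · refine (ray_mono _ _ _ hle₁).trans ?_
    rw [← b2]
    exact le_add_self.trans hlt₁.le
  · refine (ray_mono _ _ _ hle₂).trans ?_
    rw [← b3]
    exact le_self_add.trans hlt₂.le
  · refine (ray_mono _ _ _ hle₂).trans ?_
    rw [← b4]
    exact le_add_self.trans hlt₂.le

/-- constants -/
theorem const_lv {e R I β : ℝ≥0∞} {N : ℕ} (he0 : e ≠ 0) (he1 : e ≠ ∞) (hR : R ≠ ∞) (hβ1 : β ≠ ∞)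
    (hN : N ≠ 0) (hM : (8192 * (R + 1) / (e * e)) * β ≤ N) (hI : N * I ≤ R) :
    128 * β / e * I ≤ e / 64 := by
  have hI1 : I ≠ ∞ := by
    rintro rfl
    rw [ENNReal.mul_top (by exact_mod_cast hN)] at hI
    exact hR (top_le_iff.mp hI)
  lift e to NNReal using he1
  lift R to NNReal using hR
  lift β to NNReal using hβ1
  lift I to NNReal using hI1
  have he : e ≠ 0 := by exact_mod_cast he0
  have hee : e * e ≠ 0 := mul_ne_zero he he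
  have hM' : 8192 * (R + 1) / (e * e) * β ≤ (N : NNReal) := by
    have h1 : ((8192 * (R + 1) / (e * e) * β : NNReal) : ℝ≥0∞) ≤ ((N : NNReal) : ℝ≥0∞) := by
      rw [ENNReal.coe_mul, ENNReal.coe_div hee]
      push_cast
      exact hM
    exact_mod_cast h1
  have hI' : (N : NNReal) * I ≤ R := by exact_mod_cast hI
  have hgoal : 128 * β / e * I ≤ e / 64 := by
    have her : (0 : ℝ) < e := by
      exact_mod_cast pos_iff_ne_zero.mpr he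
    have m1 : 8192 * ((R : ℝ) + 1) / (e * e) * β ≤ N := by exact_mod_cast hM'
    have m2 : (N : ℝ) * I ≤ R := by exact_mod_cast hI'
    have m3 : (0 : ℝ) ≤ I := I.2
    have m4 : (0 : ℝ) ≤ β := β.2
    have m5 : (0 : ℝ) ≤ R := R.2
    have m6 : 8192 * ((R : ℝ) + 1) / (e * e) * β * I ≤ R + 1 := by
      have := mul_le_mul_of_nonneg_right m1 m3
      linarith
    have m7 : 8192 * (β * I) ≤ (e : ℝ) * e := by
      have h2 : 8192 * ((R : ℝ) + 1) / (e * e) * β * I = (8192 * (β * I) / (e * e)) * (R + 1) := by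
        ring
      rw [h2] at m6
      have h3 : 8192 * ((β : ℝ) * I) / (e * e) ≤ 1 := by
        by_contra hcon
        have h4 := mul_lt_mul_of_pos_right (not_le.mp hcon) (show (0 : ℝ) < R + 1 by linarith)
        linarith
      rwa [div_le_one (by positivity)] at h3
    rw [← NNReal.coe_le_coe]
    push_cast
    rw [div_mul_eq_mul_div, div_le_iff₀ her]
    linarith
  calc 128 * (β : ℝ≥0∞) / e * I = ((128 * β / e * I : NNReal) : ℝ≥0∞) := by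
        rw [ENNReal.coe_mul, ENNReal.coe_div he]
        push_cast
        rfl
    _ ≤ ((e / 64 : NNReal) : ℝ≥0∞) := ENNReal.coe_le_coe.mpr hgoal
    _ = (e : ℝ≥0∞) / 64 := by
        rw [ENNReal.coe_div (by norm_num)]
        rfl

theorem const_L {e β : ℝ≥0∞} (he0 : e ≠ 0) (he1 : e ≠ ∞) (hβ0 : β ≠ 0) (hβ1 : β ≠ ∞) :
    (128 * β / e)⁻¹ * (4 * β) ≤ e / 32 := by
  rw [ENNReal.inv_div (Or.inl he1) (Or.inl he0)]
  lift e to NNReal using he1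
  lift β to NNReal using hβ1
  have hβ' : β ≠ 0 := by exact_mod_cast hβ0
  have h5 : e / (128 * β) * (4 * β) = e / 32 := by
    have hβr : (β : ℝ) ≠ 0 := by exact_mod_cast hβ'
    rw [← NNReal.coe_inj]
    push_cast
    field_simp
    ring
  have h6 : (128 * β : NNReal) ≠ 0 := mul_ne_zero (by norm_num) hβ'
  apply le_of_eq
  calc (e : ℝ≥0∞) / (128 * β) * (4 * β) = ((e / (128 * β) * (4 * β) : NNReal) : ℝ≥0∞) := by
        rw [ENNReal.coe_mul, ENNReal.coe_div h6]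
        push_cast
        rfl
    _ = ((e / 32 : NNReal) : ℝ≥0∞) := by rw [h5]
    _ = (e : ℝ≥0∞) / 32 := by
        rw [ENNReal.coe_div (by norm_num)]
        rfl

/-- **Small loops at a rich point.** -/
theorem rich_loops {Y₁ Y₂ : ℝ → ℝ} (h₁ : Inc Y₁) (h₂ : Inc Y₂) {y : ℝ} (hc₁ : ContinuousAt Y₁ y)
    (hc₂ : ContinuousAt Y₂ y) (hy : Rich Y₁ Y₂ y) : LoopParam Y₁ Y₂ y := by
  intro ρ₁ ρ₂ hρ₁ hρ₂ hI₁ hI₂ ε hε η hη
  set e : ℝ≥0∞ := min ε 1 with he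
  have he0 : e ≠ 0 := by
    rw [he]
    exact ne_of_gt (lt_min hε one_pos)
  have he1 : e ≠ ∞ := ne_top_of_le_ne_top ENNReal.one_ne_top (min_le_right _ _)
  have heε : e ≤ ε := min_le_left _ _
  set R : ℝ≥0∞ := (∫⁻ p, ρ₁ p ^ 2) + ∫⁻ p, ρ₂ p ^ 2 with hR
  have hR1 : R ≠ ∞ := ENNReal.add_ne_top.mpr ⟨hI₁, hI₂⟩
  obtain ⟨γ₁, hγ₁, hcc₁⟩ := Metric.continuousAt_iff.mp hc₁ η hη
  obtain ⟨γ₂, hγ₂, hcc₂⟩ := Metric.continuousAt_iff.mp hc₂ η hη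
  have hev : ∀ᶠ n : ℕ in atTop, (1 / 2 : ℝ) ^ n < min γ₁ γ₂ :=
    (tendsto_pow_atTop_nhds_zero_of_lt_one (by norm_num) (by norm_num)).eventually
      (gt_mem_nhds (lt_min hγ₁ hγ₂))
  obtain ⟨n₀, hn₀⟩ := eventually_atTop.mp hev
  have hMt : 8192 * (R + 1) / (e * e) ≠ ∞ :=
    ENNReal.div_ne_top (ENNReal.mul_ne_top (by norm_num) (ENNReal.add_ne_top.mpr ⟨hR1, by simp⟩))
      (mul_ne_zero he0 he0)
  obtain ⟨F, β, hβ0, hβ1, hMF, hFne, hF, hsep⟩ := hy _ hMt n₀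
  -- the sum over the levels
  have hsum : ∀ (Y : ℝ → ℝ) (ρ : ℝ × ℝ → ℝ≥0∞), (∀ n ∈ F, ∀ m ∈ F, n < m → Sp Y n m y) →
      ∑ n ∈ F, ∫⁻ z in ann Y n y, ρ z ^ 2 ≤ ∫⁻ z, ρ z ^ 2 := by
    intro Y ρ hs
    rw [← lintegral_biUnion_finset]
    · exact setLIntegral_le_lintegral _ _
    · intro n hn m hm hnm
      rcases lt_or_gt_of_ne hnm with h | h
      · exact ann_disj (hs n hn m hm h)
      · exact (ann_disj (hs m hm n hn h)).symm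
    · intro n _
      exact measurableSet_ann _ _ _
  obtain ⟨n, hnF, hmin⟩ := Finset.exists_min_image F
    (fun n => (∫⁻ z in ann Y₁ n y, ρ₁ z ^ 2) + ∫⁻ z in ann Y₂ n y, ρ₂ z ^ 2) hFne
  have hcard : (F.card : ℝ≥0∞) * ((∫⁻ z in ann Y₁ n y, ρ₁ z ^ 2) + ∫⁻ z in ann Y₂ n y, ρ₂ z ^ 2) ≤
      R := by
    calc (F.card : ℝ≥0∞) * ((∫⁻ z in ann Y₁ n y, ρ₁ z ^ 2) + ∫⁻ z in ann Y₂ n y, ρ₂ z ^ 2)
        = ∑ _m ∈ F, ((∫⁻ z in ann Y₁ n y, ρ₁ z ^ 2) + ∫⁻ z in ann Y₂ n y, ρ₂ z ^ 2) := by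
          rw [Finset.sum_const, nsmul_eq_mul]
      _ ≤ ∑ m ∈ F, ((∫⁻ z in ann Y₁ m y, ρ₁ z ^ 2) + ∫⁻ z in ann Y₂ m y, ρ₂ z ^ 2) :=
          Finset.sum_le_sum hmin
      _ ≤ R := by
          rw [Finset.sum_add_distrib]
          exact add_le_add (hsum Y₁ ρ₁ fun n hn m hm h => (hsep n hn m hm h).1)
            (hsum Y₂ ρ₂ fun n hn m hm h => (hsep n hn m hm h).2)
  have hN : F.card ≠ 0 := Finset.card_ne_zero.mpr hFne
  have hk : ∀ I : ℝ≥0∞, I ≤ (∫⁻ z in ann Y₁ n y, ρ₁ z ^ 2) + ∫⁻ z in ann Y₂ n y, ρ₂ z ^ 2 →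
      128 * β / e * I ≤ e / 64 := by
    intro I hI
    exact const_lv he0 he1 hR1 hβ1 hN hMF ((by gcongr : (F.card : ℝ≥0∞) * I ≤ _).trans hcard)
  have h128 : 128 * β ≠ 0 := mul_ne_zero (by norm_num) hβ0
  have h128t : 128 * β ≠ ∞ := ENNReal.mul_ne_top (by norm_num) hβ1
  have hL0 : 128 * β / e ≠ 0 := by
    rw [ENNReal.div_ne_zero]
    exact ⟨h128, he1⟩
  have hL1 : 128 * β / e ≠ ∞ := ENNReal.div_ne_top h128t he0
  have hLM := const_L he0 he1 hβ0 hβ1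
  obtain ⟨c, x, s1, s2, q1, q2, q3, q4, r1, r2, r3, r4, w1, w2, w3, w4⟩ :=
    loop_level h₁ h₂ (hF n hnF).2 hρ₁ hρ₂ he0 he1 hL0 hL1 hLM (hk _ le_self_add) (hk _ le_add_self)
  have hyI : y ∈ Ico (0:ℝ) 1 := (hF n hnF).2.1.1
  have hsmall : (1 : ℝ) / 2 ^ n < min γ₁ γ₂ := by
    rw [← one_div_pow]
    exact hn₀ n (hF n hnF).1
  have hay := idx_le n y
  have hyb := lt_idx n y
  have hcd : ((idx n y : ℝ) + 1) / 2 ^ n = (idx n y : ℝ) / 2 ^ n + 1 / 2 ^ n := by ring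
  rw [hcd] at q4 hyb
  have hc0 : 0 ≤ c := by
    have : (0 : ℝ) ≤ (idx n y : ℝ) := by exact_mod_cast idx_nonneg n hyI.1
    exact le_trans (by positivity) q1
  have hx1 : x ≤ 1 := by
    have h3 : ((idx n y : ℝ) + 1) / 2 ^ n ≤ 1 := by
      rw [div_le_one (by positivity)]
      exact idx_add_one_le n hyI.2
    rw [hcd] at h3
    exact q4.trans h3
  have hdc : dist c y < min γ₁ γ₂ := by
    rw [Real.dist_eq, abs_of_neg (by linarith)]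
    linarith
  have hdx : dist x y < min γ₁ γ₂ := by
    rw [Real.dist_eq, abs_of_pos (by linarith)]
    linarith
  have k1 := hcc₁ (hdc.trans_le (min_le_left _ _))
  have k2 := hcc₁ (hdx.trans_le (min_le_left _ _))
  have k3 := hcc₂ (hdc.trans_le (min_le_right _ _))
  have k4 := hcc₂ (hdx.trans_le (min_le_right _ _))
  rw [Real.dist_eq, abs_lt] at k1 k2 k3 k4
  exact ⟨c, x, s1, s2, hc0, q2, q3, hx1, by linarith [k1.1], by linarith [k2.2], by linarith [k3.1],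
    by linarith [k4.2], r1, r2, r3, r4, w1.trans heε, w2.trans heε, w3.trans heε, w4.trans heε⟩

end Pool.Agent.H.MP_4bdd60_an.LP
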