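import Mathlib

/-!
# MP_4bdd60_an: points in many sets of a finite family

PLAN (50 lines, Mathlib only).  `f w = ∑ i ∈ S, (G i).indicator 1 w` has `∫⁻ w in Ico 0 1, f = ∑ volume (G i) ≥ |S| / 8`
and `f ≤ |S|`.  With `E` the set of the statement, `f ≤ |S|` on `E` and `f ≤ |S| / 16` off `E`, so
`|S| / 8 ≤ |S| * volume E + |S| / 16`, and `volume E ≥ 1/16` (if `|S| = 0`, then `E = Ico 0 1`).
-/

set_option autoImplicit false

namespace Pool.Agent.H.MP_4bdd60_an.LP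

open MeasureTheory Set Filter Topology
open scoped ENNReal

theorem count_sel (S : Finset ℕ) (G : ℕ → Set ℝ) (hm : ∀ i ∈ S, MeasurableSet (G i))
    (hsub : ∀ i ∈ S, G i ⊆ Ico (0:ℝ) 1) (hv : ∀ i ∈ S, 8⁻¹ ≤ volume (G i)) :
    16⁻¹ ≤ volume {w : ℝ | w ∈ Ico (0:ℝ) 1 ∧
      (S.card : ℝ≥0∞) ≤ 16 * ∑ i ∈ S, (G i).indicator (fun _ => (1 : ℝ≥0∞)) w} := by
  classical
  obtain ⟨f, hf⟩ : ∃ f : ℝ → ℝ≥0∞, f = fun w => ∑ i ∈ S, (G i).indicator (fun _ => (1 : ℝ≥0∞)) w :=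
    ⟨_, rfl⟩
  have hfm : Measurable f := by
    rw [hf]
    exact Finset.measurable_sum S (fun i hi => measurable_const.indicator (hm i hi))
  obtain ⟨E, hE⟩ : ∃ E : Set ℝ, E = {w : ℝ | w ∈ Ico (0:ℝ) 1 ∧ (S.card : ℝ≥0∞) ≤ 16 * f w} := ⟨_, rfl⟩
  have hgoal : {w : ℝ | w ∈ Ico (0:ℝ) 1 ∧
      (S.card : ℝ≥0∞) ≤ 16 * ∑ i ∈ S, (G i).indicator (fun _ => (1 : ℝ≥0∞)) w} = E := by
    rw [hE, hf]
  rw [hgoal]
  have hEm : MeasurableSet E := by
    rw [hE]
    exact measurableSet_Ico.inter (measurableSet_le measurable_const (measurable_const.mul hfm))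
  by_cases hS : S.card = 0
  · have h1 : E = Ico (0:ℝ) 1 := by
      rw [hE]
      ext w
      simp [hS]
    rw [h1, Real.volume_Ico]
    norm_num
  have hn0 : (S.card : ℝ≥0∞) ≠ 0 := by exact_mod_cast hS
  have hnt : (S.card : ℝ≥0∞) ≠ ⊤ := ENNReal.natCast_ne_top _
  have hlow : (S.card : ℝ≥0∞) * 8⁻¹ ≤ ∫⁻ w in Ico (0:ℝ) 1, f w := by
    have h1 : ∫⁻ w in Ico (0:ℝ) 1, f w = ∑ i ∈ S, volume (G i) := by
      rw [hf]
      rw [lintegral_finsetSum' S (fun i hi => (measurable_const.indicator (hm i hi)).aemeasurable)]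
      refine Finset.sum_congr rfl (fun i hi => ?_)
      rw [lintegral_indicator (hm i hi), lintegral_const, one_mul,
        Measure.restrict_apply_univ, Measure.restrict_apply (hm i hi),
        Set.inter_eq_left.mpr (hsub i hi)]
    rw [h1, ← nsmul_eq_mul, ← Finset.sum_const]
    exact Finset.sum_le_sum hv
  have hup : ∫⁻ w in Ico (0:ℝ) 1, f w ≤ (S.card : ℝ≥0∞) * (volume E + 16⁻¹) := by
    have hpt : ∀ w ∈ Ico (0:ℝ) 1, f w ≤ (S.card : ℝ≥0∞) * (E.indicator (fun _ => (1 : ℝ≥0∞)) w + 16⁻¹) := by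
      intro w hw
      by_cases hwE : w ∈ E
      · rw [Set.indicator_of_mem hwE, mul_add, mul_one]
        refine le_trans ?_ le_self_add
        rw [hf]
        calc ∑ i ∈ S, (G i).indicator (fun _ => (1 : ℝ≥0∞)) w ≤ ∑ _i ∈ S, (1 : ℝ≥0∞) :=
              Finset.sum_le_sum (fun i _ => Set.indicator_le_self' (fun _ _ => zero_le_one) w)
          _ = S.card := by simp
      · rw [Set.indicator_of_notMem hwE, zero_add]
        have h1 : 16 * f w ≤ (S.card : ℝ≥0∞) := by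
          by_contra hc
          apply hwE
          rw [hE]
          exact ⟨hw, (not_le.mp hc).le⟩
        rw [← div_eq_mul_inv, ENNReal.le_div_iff_mul_le (Or.inl (by norm_num)) (Or.inl (by norm_num)),
          mul_comm]
        exact h1
    calc ∫⁻ w in Ico (0:ℝ) 1, f w
        ≤ ∫⁻ w in Ico (0:ℝ) 1, (S.card : ℝ≥0∞) * (E.indicator (fun _ => (1 : ℝ≥0∞)) w + 16⁻¹) :=
          setLIntegral_mono' measurableSet_Ico hpt
      _ = (S.card : ℝ≥0∞) * ∫⁻ w in Ico (0:ℝ) 1, (E.indicator (fun _ => (1 : ℝ≥0∞)) w + 16⁻¹) := by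
          rw [lintegral_const_mul' _ _ hnt]
      _ = (S.card : ℝ≥0∞) * ((∫⁻ w in Ico (0:ℝ) 1, E.indicator (fun _ => (1 : ℝ≥0∞)) w) +
            ∫⁻ _w in Ico (0:ℝ) 1, 16⁻¹) := by
          rw [lintegral_add_left (measurable_const.indicator hEm)]
      _ ≤ (S.card : ℝ≥0∞) * (volume E + 16⁻¹) := by
          gcongr
          · calc ∫⁻ w in Ico (0:ℝ) 1, E.indicator (fun _ => (1 : ℝ≥0∞)) w
                ≤ ∫⁻ w, E.indicator (fun _ => (1 : ℝ≥0∞)) w := setLIntegral_le_lintegral _ _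
              _ = volume E := by
                  rw [lintegral_indicator hEm, lintegral_const, one_mul, Measure.restrict_apply_univ]
          · rw [lintegral_const, Measure.restrict_apply_univ, Real.volume_Ico]
            norm_num
  have h8 : (8⁻¹ : ℝ≥0∞) = 16⁻¹ + 16⁻¹ := by
    rw [← two_mul, show (16:ℝ≥0∞) = 2 * 8 by norm_num,
      ENNReal.mul_inv (Or.inl (by norm_num)) (Or.inl (by norm_num)), ← mul_assoc,
      ENNReal.mul_inv_cancel (by norm_num) (by norm_num), one_mul]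
  have h2 : (8⁻¹ : ℝ≥0∞) ≤ volume E + 16⁻¹ := by
    have h3 := hlow.trans hup
    exact (ENNReal.mul_le_mul_iff_right hn0 hnt).mp h3
  rw [h8] at h2
  exact (ENNReal.add_le_add_iff_right (by simp)).mp h2

end Pool.Agent.H.MP_4bdd60_an.LP
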