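import Mathlib

/-!
# MP_4bdd60_an: two points in infinitely many sets

PLAN (50 lines, Mathlib only).  Copy of the proof of `two_points` in Select.lean: `U m = ⋃ N ≥ m, E N` is antitone with
`volume (U m) ≥ 16⁻¹`, so `volume (⋂ m, U m) ≥ 16⁻¹`; remove the countable set `Z`; a non-null set is not a subsingleton.
-/

set_option autoImplicit false

namespace Pool.Agent.H.MP_4bdd60_an.LP

open MeasureTheory Set Filter Topology
open scoped ENNReal

theorem sel_two (E : ℕ → Set ℝ) (hm : ∀ N, MeasurableSet (E N)) (hs : ∀ N, E N ⊆ Ico (0:ℝ) 1)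
    (hv : ∃ᶠ N in atTop, 16⁻¹ ≤ volume (E N)) (Z : Set ℝ) (hZ : Z.Countable) :
    ∃ y y' : ℝ, y < y' ∧ y ∉ Z ∧ y' ∉ Z ∧ (∃ᶠ N in atTop, y ∈ E N) ∧
      (∃ᶠ N in atTop, y' ∈ E N) := by
  set U : ℕ → Set ℝ := fun m => ⋃ n ≥ m, E n with hU
  have hUm : ∀ m, MeasurableSet (U m) := fun m =>
    MeasurableSet.iUnion (fun n => MeasurableSet.iUnion (fun _ => hm n))
  have hUa : Antitone U := by
    intro m m' hmm' w hw
    simp only [hU, mem_iUnion] at hw ⊢
    obtain ⟨n, hn, hw⟩ := hw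
    exact ⟨n, le_trans hmm' hn, hw⟩
  have hUv : ∀ m, 16⁻¹ ≤ volume (U m) := by
    intro m
    obtain ⟨n, hn, hle⟩ := frequently_atTop.mp hv m
    refine hle.trans (measure_mono ?_)
    intro w hw
    simp only [hU, mem_iUnion]
    exact ⟨n, hn, hw⟩
  have hfin : volume (U 0) ≠ ∞ := by
    have hs : U 0 ⊆ Ico (0:ℝ) 1 := by
      intro w hw
      simp only [hU, mem_iUnion] at hw
      obtain ⟨n, _, hw⟩ := hw
      exact hs n hw
    exact ne_top_of_le_ne_top (by simp) (measure_mono hs)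
  have hI : 16⁻¹ ≤ volume (⋂ m, U m) := by
    rw [hUa.measure_iInter (fun m => (hUm m).nullMeasurableSet) ⟨0, hfin⟩]
    exact le_iInf hUv
  have hI2 : volume ((⋂ m, U m) \ Z) ≠ 0 := by
    rw [measure_sdiff_null (hZ.measure_zero volume)]
    intro h0
    rw [h0] at hI
    simp at hI
  have hns : ¬ ((⋂ m, U m) \ Z).Subsingleton := fun h => hI2 (h.measure_zero volume)
  rw [not_subsingleton_iff] at hns
  obtain ⟨y, hy, y', hy', hne⟩ := hns
  have hf : ∀ w ∈ ⋂ m, U m, ∃ᶠ n in atTop, w ∈ E n := by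
    intro w hw
    rw [frequently_atTop]
    intro m
    have := mem_iInter.mp hw m
    simp only [hU, mem_iUnion] at this
    obtain ⟨n, hn, hw2⟩ := this
    exact ⟨n, hn, hw2⟩
  rcases lt_or_gt_of_ne hne with h | h
  · exact ⟨y, y', h, hy.2, hy'.2, hf y hy.1, hf y' hy'.1⟩
  · exact ⟨y', y, h, hy'.2, hy.2, hf y' hy'.1, hf y hy.1⟩

end Pool.Agent.H.MP_4bdd60_an.LP
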