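import Mathlib
import Pool.Agent.H.MP_4bdd60_an.V.Df

/-!
# MP_4bdd60_an: the summed series with a general bound

PLAN: copy of `Cnt_series` in U/Cnt.lean with `X` in place of `m + 1`.
-/

set_option autoImplicit false

namespace Pool.Agent.H.MP_4bdd60_an.LP

open MeasureTheory Set Filter Topology
open scoped ENNReal

theorem Cnt_seriesX {Y : ℝ → ℝ} (h : Inc Y) {B s : ℝ} (hB : 0 ≤ B) (hs : s < 1)
    (hD : ∀ m : ℕ, D Y 0 m ≤ ENNReal.ofReal (B * (2 : ℝ) ^ (s * m))) {m N : ℕ} {X : ℝ}
    (hX : 1 ≤ X) (hm : D Y 0 m ≤ ENNReal.ofReal (B * X)) (hN : (N : ℝ) ≤ (1 - s) / 2 * m) :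
    ∑ n ∈ Finset.range N, (8 * ∑' i : ℕ, (2 : ℝ≥0∞)⁻¹ ^ i * D Y n (n + i)) ≤
      KU B s * ENNReal.ofReal X := by
  rw [← Finset.mul_sum]
  unfold KU
  rw [mul_assoc]
  gcongr
  calc ∑ n ∈ Finset.range N, ∑' i : ℕ, (2 : ℝ≥0∞)⁻¹ ^ i * D Y n (n + i)
      = ∑' i : ℕ, ∑ n ∈ Finset.range N, (2 : ℝ≥0∞)⁻¹ ^ i * D Y n (n + i) := by
        rw [Summable.tsum_finsetSum (fun _ _ => ENNReal.summable)]
    _ ≤ ∑' i : ℕ, ENNReal.ofReal B *
          ((2 : ℝ≥0∞)⁻¹ ^ i * i + ENNReal.ofReal (kap s ^ i) * i) * ENNReal.ofReal X := by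
        apply ENNReal.tsum_le_tsum
        intro i
        rw [← Finset.mul_sum]
        have h1 : (2 : ℝ≥0∞)⁻¹ ^ i * D Y 0 (N + i) ≤
            ENNReal.ofReal B * ((2 : ℝ≥0∞)⁻¹ ^ i + ENNReal.ofReal (kap s ^ i)) * ENNReal.ofReal X := by
          rcases le_or_gt (N + i) m with h2 | h2
          · calc (2 : ℝ≥0∞)⁻¹ ^ i * D Y 0 (N + i) ≤ (2 : ℝ≥0∞)⁻¹ ^ i * ENNReal.ofReal (B * X) := by
                  gcongr
                  exact (Cnt_mono h h2).trans hm
              _ = ENNReal.ofReal B * (2 : ℝ≥0∞)⁻¹ ^ i * ENNReal.ofReal X := by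
                  rw [ENNReal.ofReal_mul hB]
                  ring
              _ ≤ _ := by
                  gcongr
                  exact le_self_add
          · have h3 : (2 : ℝ≥0∞)⁻¹ ^ i * D Y 0 (N + i) ≤ ENNReal.ofReal (B * kap s ^ i) := by
              calc (2 : ℝ≥0∞)⁻¹ ^ i * D Y 0 (N + i)
                  ≤ (2 : ℝ≥0∞)⁻¹ ^ i * ENNReal.ofReal (B * (2 : ℝ) ^ (s * (N + i : ℕ))) := by
                    gcongr
                    exact hD (N + i)
                _ = ENNReal.ofReal ((1 / 2 : ℝ) ^ i * (B * (2 : ℝ) ^ (s * (N + i : ℕ)))) := by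
                    rw [ENNReal.ofReal_mul (p := (1 / 2 : ℝ) ^ i) (by positivity),
                      ENNReal.ofReal_pow (by norm_num),
                      one_div, ENNReal.ofReal_inv_of_pos (by norm_num)]
                    norm_num
                _ ≤ ENNReal.ofReal (B * kap s ^ i) := by
                    apply ENNReal.ofReal_le_ofReal
                    have e1 : (1 / 2 : ℝ) ^ i = (2 : ℝ) ^ (-(i : ℝ)) := by
                      rw [Real.rpow_neg (by norm_num), Real.rpow_natCast, one_div, inv_pow]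
                    have e2 : kap s ^ i = (2 : ℝ) ^ (-((1 - s) / 2) * i) := by
                      unfold kap
                      rw [← Real.rpow_natCast, ← Real.rpow_mul (by norm_num)]
                    rw [e1, e2]
                    have e3 : (2 : ℝ) ^ (-(i : ℝ)) * (B * (2 : ℝ) ^ (s * (N + i : ℕ))) =
                        B * (2 : ℝ) ^ (-(i : ℝ) + s * (N + i : ℕ)) := by
                      rw [Real.rpow_add (by norm_num)]
                      ring
                    rw [e3]
                    refine mul_le_mul_of_nonneg_left ?_ hB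
                    apply Real.rpow_le_rpow_of_exponent_le (by norm_num)
                    have h4 : (m : ℝ) < N + i := by exact_mod_cast h2
                    push_cast
                    have h5 : (0 : ℝ) ≤ i := Nat.cast_nonneg i
                    have h6 : (0 : ℝ) ≤ N := Nat.cast_nonneg N
                    -- 2 N ≤ (1 - s) m < (1 - s) (N + i)
                    have h7 : 2 * (N : ℝ) ≤ (1 - s) * (N + i) := by
                      have : (1 - s) * (m : ℝ) ≤ (1 - s) * (N + i) :=
                        mul_le_mul_of_nonneg_left h4.le (by linarith)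
                      linarith
                    have h8 : (1 + s) * (N : ℝ) ≤ (1 - s) * i := by linarith
                    have h9 : s * (N : ℝ) ≤ (1 - s) / 2 * i := by
                      have h10 : 2 * (s * (N : ℝ)) ≤ (1 + s) * N := by nlinarith
                      linarith
                    linarith
            calc (2 : ℝ≥0∞)⁻¹ ^ i * D Y 0 (N + i) ≤ ENNReal.ofReal (B * kap s ^ i) := h3
              _ = ENNReal.ofReal B * ENNReal.ofReal (kap s ^ i) * 1 := by
                  rw [ENNReal.ofReal_mul hB, mul_one]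
              _ ≤ ENNReal.ofReal B * ((2 : ℝ≥0∞)⁻¹ ^ i + ENNReal.ofReal (kap s ^ i)) * ENNReal.ofReal X := by
                  refine mul_le_mul' (mul_le_mul_right le_add_self _) ?_
                  exact ENNReal.one_le_ofReal.2 hX
        calc (2 : ℝ≥0∞)⁻¹ ^ i * ∑ n ∈ Finset.range N, D Y n (n + i)
            ≤ (2 : ℝ≥0∞)⁻¹ ^ i * (i * D Y 0 (N + i)) := by
              gcongr
              exact Cnt_sum h N i
          _ = i * ((2 : ℝ≥0∞)⁻¹ ^ i * D Y 0 (N + i)) := by ring
          _ ≤ i * (ENNReal.ofReal B * ((2 : ℝ≥0∞)⁻¹ ^ i + ENNReal.ofReal (kap s ^ i)) * ENNReal.ofReal X) := by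
              gcongr
          _ = ENNReal.ofReal B * ((2 : ℝ≥0∞)⁻¹ ^ i * i + ENNReal.ofReal (kap s ^ i) * i) *
                ENNReal.ofReal X := by ring
    _ = ENNReal.ofReal B * (∑' i : ℕ, ((2 : ℝ≥0∞)⁻¹ ^ i * i + ENNReal.ofReal (kap s ^ i) * i)) *
          ENNReal.ofReal X := by
        rw [ENNReal.tsum_mul_right, ENNReal.tsum_mul_left]

end Pool.Agent.H.MP_4bdd60_an.LP
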