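import Mathlib
import Pool.Agent.H.MP_4bdd60_an.V.Lp
import Pool.Agent.H.MP_4bdd60_an.V.BadL
import Pool.Agent.H.MP_4bdd60_an.V.BadR
import Pool.Agent.H.MP_4bdd60_an.V.SelA
import Pool.Agent.H.MP_4bdd60_an.V.SelB
import Pool.Agent.H.MP_4bdd60_an.V.Ari
import Pool.Agent.H.MP_4bdd60_an.V.Ser

/-!
# MP_4bdd60_an: existence of rich points
-/

set_option autoImplicit false

namespace Pool.Agent.H.MP_4bdd60_an.LP

open MeasureTheory Set Filter Topology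
open scoped ENNReal

theorem measurable_gapL {Y : ℝ → ℝ} (hY : Measurable Y) (n : ℕ) : Measurable (gapL Y n) := by
  unfold gapL
  exact hY.sub ((measurable_of_countable (fun k : ℤ => Y (((k : ℝ) + 1 / 4) / 2 ^ n))).comp
    (measurable_idx n))

theorem measurable_gapR {Y : ℝ → ℝ} (hY : Measurable Y) (n : ℕ) : Measurable (gapR Y n) := by
  unfold gapR
  exact ((measurable_of_countable (fun k : ℤ => Y (((k : ℝ) + 3 / 4) / 2 ^ n))).comp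
    (measurable_idx n)).sub hY

theorem measurable_lenx (Y : ℝ → ℝ) (m : ℕ) : Measurable (fun w => 15 * len Y m (idx m w)) :=
  ((measurable_of_countable (fun k : ℤ => len Y m k)).comp (measurable_idx m)).const_mul 15

theorem measurableSet_Sp {Y : ℝ → ℝ} (hY : Measurable Y) (n m : ℕ) :
    MeasurableSet {w | Sp Y n m w} :=
  (measurableSet_le (measurable_lenx Y m) (measurable_gapL hY n)).inter
    (measurableSet_le (measurable_lenx Y m) (measurable_gapR hY n))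

/-- good and separated from the level `n + s` -/
def Gs (Y₁ Y₂ : ℝ → ℝ) (β : ℝ≥0∞) (n s : ℕ) : Set ℝ :=
  Gd Y₁ Y₂ β n ∩ ({w | Sp Y₁ n (n + s) w} ∩ {w | Sp Y₂ n (n + s) w})

theorem measurableSet_Gs {Y₁ Y₂ : ℝ → ℝ} (h1 : Measurable Y₁) (h2 : Measurable Y₂) (β : ℝ≥0∞)
    (n s : ℕ) : MeasurableSet (Gs Y₁ Y₂ β n s) :=
  (measurableSet_Gd h1 h2 β n).inter ((measurableSet_Sp h1 _ _).inter (measurableSet_Sp h2 _ _))

theorem volume_Gs {Y₁ Y₂ : ℝ → ℝ} (h₁ : Inc Y₁) (h₂ : Inc Y₂) {β : ℝ≥0∞} (hβ0 : β ≠ 0)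
    (hβ1 : β ≠ ∞) {n s : ℕ} (hn : 2 ^ n * EN Y₁ n + 2 ^ n * EN Y₂ n ≤ β) (hs : 6 ≤ s)
    (hd₁ : 2 ^ 10 * (2 : ℝ≥0∞)⁻¹ ^ s * D Y₁ n (n + s) ≤ (2 : ℝ≥0∞)⁻¹ ^ 6)
    (hd₂ : 2 ^ 10 * (2 : ℝ≥0∞)⁻¹ ^ s * D Y₂ n (n + s) ≤ (2 : ℝ≥0∞)⁻¹ ^ 6) :
    8⁻¹ ≤ volume (Gs Y₁ Y₂ β n s) := by
  have hG := volume_Gd h₁.mono.measurable h₂.mono.measurable hβ0 hβ1 hn
  have hcov : Gd Y₁ Y₂ β n ⊆ Gs Y₁ Y₂ β n s ∪
      ((((Ico (0:ℝ) 1 ∩ mid n) ∩ {w | gapL Y₁ n w < 15 * len Y₁ (n + s) (idx (n + s) w)}) ∪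
      ((Ico (0:ℝ) 1 ∩ mid n) ∩ {w | gapR Y₁ n w < 15 * len Y₁ (n + s) (idx (n + s) w)})) ∪
      (((Ico (0:ℝ) 1 ∩ mid n) ∩ {w | gapL Y₂ n w < 15 * len Y₂ (n + s) (idx (n + s) w)}) ∪
      ((Ico (0:ℝ) 1 ∩ mid n) ∩ {w | gapR Y₂ n w < 15 * len Y₂ (n + s) (idx (n + s) w)}))) := by
    intro w hw
    by_cases c1 : gapL Y₁ n w < 15 * len Y₁ (n + s) (idx (n + s) w)
    · exact Or.inr (Or.inl (Or.inl ⟨hw.1, c1⟩))
    by_cases c2 : gapR Y₁ n w < 15 * len Y₁ (n + s) (idx (n + s) w)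
    · exact Or.inr (Or.inl (Or.inr ⟨hw.1, c2⟩))
    by_cases c3 : gapL Y₂ n w < 15 * len Y₂ (n + s) (idx (n + s) w)
    · exact Or.inr (Or.inr (Or.inl ⟨hw.1, c3⟩))
    by_cases c4 : gapR Y₂ n w < 15 * len Y₂ (n + s) (idx (n + s) w)
    · exact Or.inr (Or.inr (Or.inr ⟨hw.1, c4⟩))
    exact Or.inl ⟨hw, ⟨not_lt.mp c1, not_lt.mp c2⟩, ⟨not_lt.mp c3, not_lt.mp c4⟩⟩
  have b1 := (vol_badL h₁ n s hs).trans (by gcongr : _ ≤ (2 : ℝ≥0∞)⁻¹ ^ 6 + (2 : ℝ≥0∞)⁻¹ ^ 6)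
  have b2 := (vol_badR h₁ n s hs).trans (by gcongr : _ ≤ (2 : ℝ≥0∞)⁻¹ ^ 6 + (2 : ℝ≥0∞)⁻¹ ^ 6)
  have b3 := (vol_badL h₂ n s hs).trans (by gcongr : _ ≤ (2 : ℝ≥0∞)⁻¹ ^ 6 + (2 : ℝ≥0∞)⁻¹ ^ 6)
  have b4 := (vol_badR h₂ n s hs).trans (by gcongr : _ ≤ (2 : ℝ≥0∞)⁻¹ ^ 6 + (2 : ℝ≥0∞)⁻¹ ^ 6)
  have hall := hG.trans ((measure_mono hcov).trans ((measure_union_le _ _).trans
    (add_le_add le_rfl ((measure_union_le _ _).trans (add_le_add
      ((measure_union_le _ _).trans (add_le_add b1 b2))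
      ((measure_union_le _ _).trans (add_le_add b3 b4)))))))
  have e8 : (2 : ℝ≥0∞)⁻¹ ^ 6 + (2 : ℝ≥0∞)⁻¹ ^ 6 + ((2 : ℝ≥0∞)⁻¹ ^ 6 + (2 : ℝ≥0∞)⁻¹ ^ 6) +
      ((2 : ℝ≥0∞)⁻¹ ^ 6 + (2 : ℝ≥0∞)⁻¹ ^ 6 + ((2 : ℝ≥0∞)⁻¹ ^ 6 + (2 : ℝ≥0∞)⁻¹ ^ 6)) =
      (8 : ℝ≥0∞)⁻¹ := by
    have a1 : (2 : ℝ≥0∞)⁻¹ = ((2⁻¹ : NNReal) : ℝ≥0∞) := by
      rw [ENNReal.coe_inv (by norm_num)]; rfl
    have a2 : (8 : ℝ≥0∞)⁻¹ = ((8⁻¹ : NNReal) : ℝ≥0∞) := by
      rw [ENNReal.coe_inv (by norm_num)]; rfl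
    rw [a1, a2]
    norm_cast
    rw [← NNReal.coe_inj]
    push_cast
    norm_num
  have e4 : (4 : ℝ≥0∞)⁻¹ = 8⁻¹ + 8⁻¹ := by
    have a1 : (4 : ℝ≥0∞)⁻¹ = ((4⁻¹ : NNReal) : ℝ≥0∞) := by
      rw [ENNReal.coe_inv (by norm_num)]; rfl
    have a2 : (8 : ℝ≥0∞)⁻¹ = ((8⁻¹ : NNReal) : ℝ≥0∞) := by
      rw [ENNReal.coe_inv (by norm_num)]; rfl
    rw [a1, a2]
    norm_cast
    rw [← NNReal.coe_inj]
    push_cast
    norm_num
  rw [e8, e4] at hall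
  exact (ENNReal.add_le_add_iff_right (by simp)).mp hall

theorem Sp_later {Y : ℝ → ℝ} (h : Inc Y) {n s m : ℕ} (hm : n + s ≤ m) {w : ℝ}
    (hs : Sp Y n (n + s) w) : Sp Y n m w := by
  obtain ⟨i, rfl⟩ := Nat.exists_eq_add_of_le hm
  have h1 := len_nest h.mono (n + s) i w
  exact ⟨le_trans (by linarith) hs.1, le_trans (by linarith) hs.2⟩

theorem D_small {Y : ℝ → ℝ} (h : Inc Y) {B X : ℝ} (hB : 0 ≤ B) (hX : 1 ≤ X) {n s N : ℕ}
    (hN : n + s ≤ N) (hD : D Y 0 N ≤ ENNReal.ofReal (B * X))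
    (hs : 2 ^ 16 * (B + 1) * X ≤ (2 : ℝ) ^ s) :
    2 ^ 10 * (2 : ℝ≥0∞)⁻¹ ^ s * D Y n (n + s) ≤ (2 : ℝ≥0∞)⁻¹ ^ 6 := by
  have h1 : D Y n (n + s) ≤ ENNReal.ofReal (B * X) := by
    have h2 := D_add' h 0 n s
    rw [zero_add] at h2
    have h3 : D Y n (n + s) ≤ D Y 0 (n + s) := by
      rw [h2]
      exact le_add_self
    exact h3.trans ((Cnt_mono h hN).trans hD)
  have e1 : 2 ^ 10 * (2 : ℝ≥0∞)⁻¹ ^ s = ENNReal.ofReal (2 ^ 10 * (2⁻¹ : ℝ) ^ s) := by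
    rw [ENNReal.ofReal_mul (by positivity), ENNReal.ofReal_pow (by norm_num),
      ENNReal.ofReal_pow (by norm_num), ENNReal.ofReal_inv_of_pos (by norm_num)]
    norm_num
  have e2 : (2 : ℝ≥0∞)⁻¹ ^ 6 = ENNReal.ofReal ((2⁻¹ : ℝ) ^ 6) := by
    rw [ENNReal.ofReal_pow (by norm_num), ENNReal.ofReal_inv_of_pos (by norm_num)]
    norm_num
  calc 2 ^ 10 * (2 : ℝ≥0∞)⁻¹ ^ s * D Y n (n + s)
      ≤ 2 ^ 10 * (2 : ℝ≥0∞)⁻¹ ^ s * ENNReal.ofReal (B * X) := by gcongr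
    _ = ENNReal.ofReal (2 ^ 10 * (2⁻¹ : ℝ) ^ s * (B * X)) := by
        rw [e1, ← ENNReal.ofReal_mul (by positivity)]
    _ ≤ (2 : ℝ≥0∞)⁻¹ ^ 6 := by
        rw [e2]
        apply ENNReal.ofReal_le_ofReal
        have hp : (0 : ℝ) < 2 ^ s := by positivity
        rw [inv_pow]
        have h5 : B * X ≤ (B + 1) * X := by nlinarith
        have h6 : 2 ^ 16 * (B * X) ≤ (2 : ℝ) ^ s := by linarith
        rw [show (2 : ℝ) ^ 10 * (2 ^ s)⁻¹ * (B * X) = (2 ^ 10 * (B * X)) / 2 ^ s by ring,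
          div_le_iff₀ hp]
        norm_num at h6 ⊢
        linarith

/-- the arithmetic progression of levels: few bad ones -/
theorem few_bad (a : ℕ → ℝ≥0∞) (K X : ℝ≥0∞) (hK : K ≠ ∞) (hX0 : X ≠ 0) (hX : X ≠ ∞) {s J N : ℕ}
    (hs : 1 ≤ s) (hJ : 1 ≤ J) (hJN : J * s ≤ N) (h : ∑ n ∈ Finset.range N, a n ≤ K * X) :
    (J : ℝ) ≤ 2 * (((Finset.range J).filter
      (fun j => a (j * s) ≤ (2 * K + 1) * X / J)).card : ℝ) := by
  classical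
  set β : ℝ≥0∞ := (2 * K + 1) * X / J with hβ
  have hJ0 : (J : ℝ≥0∞) ≠ 0 := by
    have : J ≠ 0 := by omega
    exact_mod_cast this
  have hsplit : ((Finset.range J).filter (fun j => a (j * s) ≤ β)).card +
      ((Finset.range J).filter (fun j => ¬ a (j * s) ≤ β)).card = J := by
    rw [Finset.card_filter_add_card_filter_not, Finset.card_range]
  set b : ℕ := ((Finset.range J).filter (fun j => ¬ a (j * s) ≤ β)).card with hb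
  have h1 : (b : ℝ≥0∞) * β ≤ K * X := by
    calc (b : ℝ≥0∞) * β = ∑ _j ∈ (Finset.range J).filter (fun j => ¬ a (j * s) ≤ β), β := by
          rw [Finset.sum_const, nsmul_eq_mul]
      _ ≤ ∑ j ∈ (Finset.range J).filter (fun j => ¬ a (j * s) ≤ β), a (j * s) := by
          apply Finset.sum_le_sum
          intro j hj
          exact (not_le.mp (Finset.mem_filter.mp hj).2).le
      _ = ∑ n ∈ ((Finset.range J).filter (fun j => ¬ a (j * s) ≤ β)).image (fun j => j * s), a n := by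
          rw [Finset.sum_image]
          intro i _ j _ hij
          exact Nat.eq_of_mul_eq_mul_right (by omega) hij
      _ ≤ ∑ n ∈ Finset.range N, a n := by
          apply Finset.sum_le_sum_of_subset
          intro n hn
          obtain ⟨j, hj, rfl⟩ := Finset.mem_image.mp hn
          have hjJ : j < J := Finset.mem_range.mp (Finset.mem_filter.mp hj).1
          rw [Finset.mem_range]
          have h3 : (j + 1) * s ≤ J * s := Nat.mul_le_mul_right _ hjJ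
          have h4 : (j + 1) * s = j * s + s := by ring
          show j * s < N
          omega
      _ ≤ K * X := h
  have h2 : (b : ℝ≥0∞) * (2 * K + 1) ≤ K * J := by
    have h3 : (b : ℝ≥0∞) * (2 * K + 1) * X ≤ K * J * X := by
      calc (b : ℝ≥0∞) * (2 * K + 1) * X = (b : ℝ≥0∞) * ((2 * K + 1) * X / J * J) := by
            rw [ENNReal.div_mul_cancel hJ0 (by simp)]
            ring
        _ = ((b : ℝ≥0∞) * β) * J := by rw [hβ]; ring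
        _ ≤ (K * X) * J := by gcongr
        _ = K * J * X := by ring
    exact (ENNReal.mul_le_mul_iff_left hX0 hX).mp h3
  lift K to NNReal using hK
  have h5 : (b : NNReal) * (2 * K + 1) ≤ K * J := by exact_mod_cast h2
  have h6 : (b : ℝ) * (2 * K + 1) ≤ K * J := by exact_mod_cast h5
  have h7 : (0 : ℝ) ≤ K := K.2
  have h8 : (((Finset.range J).filter (fun j => a (j * s) ≤ β)).card : ℝ) + b = J := by
    exact_mod_cast hsplit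
  have h9 : 2 * (b : ℝ) ≤ J := by
    by_contra hcon
    have h10 := not_le.mp hcon
    have h11 : K * (J : ℝ) ≤ K * (2 * b) := mul_le_mul_of_nonneg_left h10.le h7
    have h12 : (0 : ℝ) ≤ b := Nat.cast_nonneg _
    have h13 : (b : ℝ) ≤ 0 := by linarith
    have h14 : (0 : ℝ) ≤ J := Nat.cast_nonneg _
    linarith
  linarith

end Pool.Agent.H.MP_4bdd60_an.LP
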