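import Mathlib
import Pool.Agent.H.MP_4bdd60_an.V.Main

/-!
# MP_4bdd60_an: two rich points
-/

set_option autoImplicit false

namespace Pool.Agent.H.MP_4bdd60_an.LP

open MeasureTheory Set Filter Topology
open scoped ENNReal

theorem rich_params {Y₁ Y₂ : ℝ → ℝ} (h₁ : Inc Y₁) (h₂ : Inc Y₂) {B σ p : ℝ} (hB : 0 ≤ B)
    (hσ0 : 0 < σ) (hσ : σ < 1) (hp0 : 0 < p) (hp : p < 2)
    (hD₁ : ∀ m : ℕ, D Y₁ 0 m ≤ ENNReal.ofReal (B * (2 : ℝ) ^ (σ * m)))
    (hD₂ : ∀ m : ℕ, D Y₂ 0 m ≤ ENNReal.ofReal (B * (2 : ℝ) ^ (σ * m)))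
    (hfr : ∃ᶠ N : ℕ in atTop, D Y₁ 0 N ≤ ENNReal.ofReal (B * ((N : ℝ) + 1) ^ p) ∧
      D Y₂ 0 N ≤ ENNReal.ofReal (B * ((N : ℝ) + 1) ^ p)) (Z : Set ℝ) (hZ : Z.Countable) :
    ∃ y y' : ℝ, y < y' ∧ y ∉ Z ∧ y' ∉ Z ∧ y ∈ Ico (0:ℝ) 1 ∧ y' ∈ Ico (0:ℝ) 1 ∧
      Rich Y₁ Y₂ y ∧ Rich Y₁ Y₂ y' := by
  classical
  obtain ⟨K, hK⟩ : ∃ K : ℝ≥0∞, K = KU B σ + KU B σ := ⟨_, rfl⟩
  have hKt : K ≠ ∞ := by
    rw [hK]
    exact ENNReal.add_ne_top.mpr ⟨KU_ne_top B hσ, KU_ne_top B hσ⟩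
  obtain ⟨X, hX⟩ : ∃ X : ℕ → ℝ, X = fun N : ℕ => ((N : ℝ) + 1) ^ p := ⟨_, rfl⟩
  obtain ⟨s, hs⟩ : ∃ s : ℕ → ℕ, s = sN B p := ⟨_, rfl⟩
  obtain ⟨J, hJ⟩ : ∃ J : ℕ → ℕ, J = JN B p σ := ⟨_, rfl⟩
  obtain ⟨β, hβ⟩ : ∃ β : ℕ → ℝ≥0∞, β = fun N => (2 * K + 1) * ENNReal.ofReal (X N) / (J N) :=
    ⟨_, rfl⟩
  obtain ⟨a, ha⟩ : ∃ a : ℕ → ℝ≥0∞, a = fun n => 2 ^ n * EN Y₁ n + 2 ^ n * EN Y₂ n := ⟨_, rfl⟩
  obtain ⟨S, hS⟩ : ∃ S : ℕ → Finset ℕ, S = fun N =>
    (Finset.range (J N)).filter (fun j => a (j * s N) ≤ β N) := ⟨_, rfl⟩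
  obtain ⟨P, hP⟩ : ∃ P : ℕ → Prop, P = fun N => (D Y₁ 0 N ≤ ENNReal.ofReal (B * X N) ∧
    D Y₂ 0 N ≤ ENNReal.ofReal (B * X N)) ∧ 1 ≤ J N := ⟨_, rfl⟩
  obtain ⟨G, hG⟩ : ∃ G : ℕ → ℕ → Set ℝ, G = fun N j => Gs Y₁ Y₂ (β N) (j * s N) (s N) :=
    ⟨_, rfl⟩
  obtain ⟨E, hE⟩ : ∃ E : ℕ → Set ℝ, E = fun N => {w | P N ∧ w ∈ Ico (0:ℝ) 1 ∧
    ((S N).card : ℝ≥0∞) ≤ 16 * ∑ j ∈ S N, (G N j).indicator (fun _ => (1 : ℝ≥0∞)) w} := ⟨_, rfl⟩
  -- simple facts
  have hX1 : ∀ N, 1 ≤ X N := by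
    intro N
    rw [hX]
    apply Real.one_le_rpow _ hp0.le
    have : (0 : ℝ) ≤ N := Nat.cast_nonneg N
    linarith
  have hs6 : ∀ N, 6 ≤ s N := by
    intro N
    rw [hs]
    exact Nat.le_add_right _ _
  have hsp : ∀ N, 2 ^ 16 * (B + 1) * X N ≤ (2 : ℝ) ^ s N := by
    intro N
    rw [hs, hX]
    exact sN_pow hB N
  have hJs : ∀ N, J N * s N ≤ ⌊(1 - σ) / 2 * (N : ℝ)⌋₊ := by
    intro N
    rw [hs, hJ]
    exact Nat.div_mul_le_self _ _
  have hfl : ∀ N : ℕ, ((⌊(1 - σ) / 2 * (N : ℝ)⌋₊ : ℕ) : ℝ) ≤ (1 - σ) / 2 * (N : ℝ) := by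
    intro N
    apply Nat.floor_le
    have : 0 ≤ (1 - σ) / 2 := by linarith
    positivity
  have hflN : ∀ N : ℕ, ⌊(1 - σ) / 2 * (N : ℝ)⌋₊ ≤ N := by
    intro N
    have h0 : (0 : ℝ) ≤ N := Nat.cast_nonneg N
    have h1 : ((⌊(1 - σ) / 2 * (N : ℝ)⌋₊ : ℕ) : ℝ) ≤ (N : ℝ) := by
      refine (hfl N).trans ?_
      nlinarith
    exact_mod_cast h1
  have hβ0 : ∀ N, β N ≠ 0 := by
    intro N
    rw [hβ]
    simp only
    rw [ENNReal.div_ne_zero]
    refine ⟨mul_ne_zero (by simp) ?_, by simp⟩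
    rw [ne_eq, ENNReal.ofReal_eq_zero, not_le]
    linarith [hX1 N]
  have hβ1 : ∀ N, 1 ≤ J N → β N ≠ ∞ := by
    intro N hN
    rw [hβ]
    simp only
    apply ENNReal.div_ne_top
    · exact ENNReal.mul_ne_top (ENNReal.add_ne_top.mpr
        ⟨ENNReal.mul_ne_top (by norm_num) hKt, by simp⟩) ENNReal.ofReal_ne_top
    · have : J N ≠ 0 := by omega
      exact_mod_cast this
  have hsum : ∀ N, P N → ∑ n ∈ Finset.range ⌊(1 - σ) / 2 * (N : ℝ)⌋₊, a n ≤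
      K * ENNReal.ofReal (X N) := by
    intro N hPN
    rw [hP] at hPN
    obtain ⟨⟨hd1, hd2⟩, _⟩ := hPN
    rw [ha, hK]
    simp only
    rw [Finset.sum_add_distrib, add_mul]
    apply add_le_add
    · exact (Finset.sum_le_sum (fun n _ => EN_bound' h₁ n)).trans
        (Cnt_seriesX h₁ hB hσ hD₁ (hX1 N) hd1 (hfl N))
    · exact (Finset.sum_le_sum (fun n _ => EN_bound' h₂ n)).trans
        (Cnt_seriesX h₂ hB hσ hD₂ (hX1 N) hd2 (hfl N))
  have hvol : ∀ N, P N → ∀ j ∈ S N, 8⁻¹ ≤ volume (G N j) := by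
    intro N hPN j hj
    rw [hS] at hj
    obtain ⟨hj1, hj2⟩ := Finset.mem_filter.mp hj
    rw [Finset.mem_range] at hj1
    rw [hP] at hPN
    obtain ⟨⟨hd1, hd2⟩, hJN⟩ := hPN
    have hle : j * s N + s N ≤ N := by
      have h3 : (j + 1) * s N ≤ J N * s N := Nat.mul_le_mul_right _ hj1
      have h4 : (j + 1) * s N = j * s N + s N := by ring
      have h5 := hJs N
      have h6 := hflN N
      omega
    rw [hG]
    rw [ha] at hj2
    exact volume_Gs h₁ h₂ (hβ0 N) (hβ1 N hJN) hj2 (hs6 N)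
      (D_small h₁ hB (hX1 N) hle hd1 (hsp N)) (D_small h₂ hB (hX1 N) hle hd2 (hsp N))
  have hGm : ∀ N j, MeasurableSet (G N j) := by
    intro N j
    rw [hG]
    exact measurableSet_Gs h₁.mono.measurable h₂.mono.measurable _ _ _
  have hGs : ∀ N j, G N j ⊆ Ico (0:ℝ) 1 := by
    intro N j w hw
    rw [hG] at hw
    exact hw.1.1.1
  have hEm : ∀ N, MeasurableSet (E N) := by
    intro N
    rw [hE]
    by_cases hPN : P N
    · have he : {w | P N ∧ w ∈ Ico (0:ℝ) 1 ∧ ((S N).card : ℝ≥0∞) ≤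
          16 * ∑ j ∈ S N, (G N j).indicator (fun _ => (1 : ℝ≥0∞)) w} =
          Ico (0:ℝ) 1 ∩ {w | ((S N).card : ℝ≥0∞) ≤
          16 * ∑ j ∈ S N, (G N j).indicator (fun _ => (1 : ℝ≥0∞)) w} := by
        ext w
        constructor
        · intro h
          exact ⟨h.2.1, h.2.2⟩
        · intro h
          exact ⟨hPN, h.1, h.2⟩
      simp only
      rw [he]
      refine measurableSet_Ico.inter (measurableSet_le measurable_const ?_)
      apply Measurable.const_mul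
      apply Finset.measurable_fun_sum
      intro j _
      exact measurable_const.indicator (hGm N j)
    · have he : {w | P N ∧ w ∈ Ico (0:ℝ) 1 ∧ ((S N).card : ℝ≥0∞) ≤
          16 * ∑ j ∈ S N, (G N j).indicator (fun _ => (1 : ℝ≥0∞)) w} = ∅ := by
        ext w
        constructor
        · intro h
          exact absurd h.1 hPN
        · intro h
          exact absurd h (notMem_empty w)
      simp only
      rw [he]
      exact MeasurableSet.empty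
  have hEs : ∀ N, E N ⊆ Ico (0:ℝ) 1 := by
    intro N w hw
    rw [hE] at hw
    exact hw.2.1
  have hEv : ∃ᶠ N in atTop, 16⁻¹ ≤ volume (E N) := by
    have hg := grow (p := p) (σ := σ) (B := B) hp0 hp hσ0 hσ hB 0 le_rfl 0
    refine (hfr.and_eventually hg).mono ?_
    rintro N ⟨⟨hd1, hd2⟩, hJ1, _⟩
    have hPN : P N := by
      rw [hP, hX, hJ]
      exact ⟨⟨hd1, hd2⟩, hJ1⟩
    refine (count_sel (S N) (G N) (fun j _ => hGm N j) (fun j _ => hGs N j)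
      (hvol N hPN)).trans (measure_mono ?_)
    intro w hw
    rw [hE]
    exact ⟨hPN, hw.1, hw.2⟩
  have hrich : ∀ y, (∃ᶠ N in atTop, y ∈ E N) → Rich Y₁ Y₂ y := by
    intro y hy M hM n₀
    have hMK : M * (2 * K + 1) ≠ ∞ := ENNReal.mul_ne_top hM
      (ENNReal.add_ne_top.mpr ⟨ENNReal.mul_ne_top (by norm_num) hKt, by simp⟩)
    have hg := grow (p := p) (σ := σ) (B := B) hp0 hp hσ0 hσ hB (M * (2 * K + 1)).toReal
      ENNReal.toReal_nonneg n₀
    obtain ⟨N, hyN, _, hgr⟩ := (hy.and_eventually hg).exists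
    rw [hE] at hyN
    obtain ⟨hPN, hyI, hcard⟩ := hyN
    have hJ1 : 1 ≤ J N := by
      have := hPN
      rw [hP] at this
      exact this.2
    have hJ' : (J N : ℝ) = (JN B p σ N : ℝ) := by rw [hJ]
    have hX' : X N = ((N : ℝ) + 1) ^ p := by rw [hX]
    rw [← hJ', ← hX'] at hgr
    have hJpos : (0 : ℝ) < J N := by
      have : 0 < J N := by omega
      exact_mod_cast this
    -- counting
    have hfew := few_bad a K (ENNReal.ofReal (X N)) hKt (by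
      rw [ne_eq, ENNReal.ofReal_eq_zero, not_le]
      linarith [hX1 N]) ENNReal.ofReal_ne_top (show 1 ≤ s N by linarith [hs6 N]) hJ1 (hJs N)
      (hsum N hPN)
    have hSc : (J N : ℝ) ≤ 2 * ((S N).card : ℝ) := by
      rw [hS, hβ]
      exact hfew
    set F' : Finset ℕ := (S N).filter (fun j => y ∈ G N j) with hF'
    have hc1 : ((S N).card : ℝ) ≤ 16 * (F'.card : ℝ) := by
      have h1 : ∑ j ∈ S N, (G N j).indicator (fun _ => (1 : ℝ≥0∞)) y = (F'.card : ℝ≥0∞) := by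
        simp only [Set.indicator_apply]
        rw [Finset.sum_boole]
      rw [h1] at hcard
      have h2 : ((S N).card : NNReal) ≤ 16 * (F'.card : NNReal) := by exact_mod_cast hcard
      exact_mod_cast h2
    set F₂ : Finset ℕ := F'.filter (fun j => n₀ ≤ j * s N) with hF₂
    have hc2 : (F'.card : ℝ) ≤ F₂.card + n₀ := by
      have h1 : F₂.card + (F'.filter (fun j => ¬ n₀ ≤ j * s N)).card = F'.card :=
        Finset.card_filter_add_card_filter_not _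
      have h2 : (F'.filter (fun j => ¬ n₀ ≤ j * s N)).card ≤ n₀ := by
        have h3 : F'.filter (fun j => ¬ n₀ ≤ j * s N) ⊆ Finset.range n₀ := by
          intro j hj
          have h4 := (Finset.mem_filter.mp hj).2
          rw [Finset.mem_range]
          have h5 : j * 1 ≤ j * s N := Nat.mul_le_mul_left _ (by linarith [hs6 N])
          omega
        have h6 := Finset.card_le_card h3
        rwa [Finset.card_range] at h6
      have h3 : F'.card ≤ F₂.card + n₀ := by omega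
      exact_mod_cast h3
    have hinj : Function.Injective (fun j : ℕ => j * s N) := by
      intro i j hij
      exact Nat.eq_of_mul_eq_mul_right (by linarith [hs6 N]) hij
    have hc3 : (F₂.image (fun j => j * s N)).card = F₂.card :=
      Finset.card_image_of_injective _ hinj
    have hbig : (M * (2 * K + 1)).toReal * (X N / J N) + 1 ≤ (F₂.card : ℝ) := by
      linarith
    have hnn : 0 ≤ (M * (2 * K + 1)).toReal * (X N / J N) := by
      have := hX1 N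
      positivity
    refine ⟨F₂.image (fun j => j * s N), β N, hβ0 N, hβ1 N hJ1, ?_, ?_, ?_, ?_⟩
    · rw [hc3]
      have e1 : M * β N = ENNReal.ofReal ((M * (2 * K + 1)).toReal * (X N / J N)) := by
        rw [ENNReal.ofReal_mul ENNReal.toReal_nonneg, ENNReal.ofReal_toReal hMK,
          ENNReal.ofReal_div_of_pos hJpos, ENNReal.ofReal_natCast, hβ]
        simp only
        rw [mul_div_assoc]
        ring
      rw [e1, ← ENNReal.ofReal_natCast]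
      apply ENNReal.ofReal_le_ofReal
      linarith
    · rw [← Finset.card_pos, hc3]
      have : (0 : ℝ) < F₂.card := by linarith
      exact_mod_cast this
    · intro n hn
      obtain ⟨j, hj, rfl⟩ := Finset.mem_image.mp hn
      obtain ⟨hj1, hj2⟩ := Finset.mem_filter.mp hj
      have hj3 := (Finset.mem_filter.mp hj1).2
      rw [hG] at hj3
      exact ⟨hj2, hj3.1⟩
    · intro n hn m hm hnm
      obtain ⟨j, hj, rfl⟩ := Finset.mem_image.mp hn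
      obtain ⟨i, hi, rfl⟩ := Finset.mem_image.mp hm
      have hj1 := (Finset.mem_filter.mp hj).1
      have hj3 := (Finset.mem_filter.mp hj1).2
      rw [hG] at hj3
      have hji : j < i := by
        by_contra hcon
        have := Nat.mul_le_mul_right (s N) (not_lt.mp hcon)
        have h9 : j * s N < i * s N := hnm
        omega
      have hle : j * s N + s N ≤ i * s N := by
        have h3 : (j + 1) * s N ≤ i * s N := Nat.mul_le_mul_right _ hji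
        have h4 : (j + 1) * s N = j * s N + s N := by ring
        omega
      exact ⟨Sp_later h₁ hle hj3.2.1, Sp_later h₂ hle hj3.2.2⟩
  obtain ⟨y, y', hyy', hyZ, hyZ', hy, hy'⟩ := sel_two E hEm hEs hEv Z hZ
  obtain ⟨N, hN⟩ := hy.exists
  obtain ⟨N', hN'⟩ := hy'.exists
  exact ⟨y, y', hyy', hyZ, hyZ', hEs N hN, hEs N' hN', hrich y hy, hrich y' hy'⟩

/-- **two loop parameters** -/
theorem str_loopParams {Y₁ Y₂ : ℝ → ℝ} (h₁ : Inc Y₁) (h₂ : Inc Y₂) {B σ p : ℝ} (hB : 0 ≤ B)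
    (hσ0 : 0 < σ) (hσ : σ < 1) (hp0 : 0 < p) (hp : p < 2)
    (hD₁ : ∀ m : ℕ, D Y₁ 0 m ≤ ENNReal.ofReal (B * (2 : ℝ) ^ (σ * m)))
    (hD₂ : ∀ m : ℕ, D Y₂ 0 m ≤ ENNReal.ofReal (B * (2 : ℝ) ^ (σ * m)))
    (hfr : ∃ᶠ N : ℕ in atTop, D Y₁ 0 N ≤ ENNReal.ofReal (B * ((N : ℝ) + 1) ^ p) ∧
      D Y₂ 0 N ≤ ENNReal.ofReal (B * ((N : ℝ) + 1) ^ p)) :
    ∃ y y' : ℝ, 0 ≤ y ∧ y < y' ∧ y' < 1 ∧ LoopParam Y₁ Y₂ y ∧ LoopParam Y₁ Y₂ y' := by
  obtain ⟨y, y', hyy', hy, hy', hI, hI', hr, hr'⟩ := rich_params h₁ h₂ hB hσ0 hσ hp0 hp hD₁ hD₂ hfr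
    ({y | ¬ ContinuousAt Y₁ y} ∪ {y | ¬ ContinuousAt Y₂ y})
    (h₁.mono.countable_not_continuousAt.union h₂.mono.countable_not_continuousAt)
  have c1 : ContinuousAt Y₁ y := by
    by_contra h; exact hy (Or.inl h)
  have c2 : ContinuousAt Y₂ y := by
    by_contra h; exact hy (Or.inr h)
  have c3 : ContinuousAt Y₁ y' := by
    by_contra h; exact hy' (Or.inl h)
  have c4 : ContinuousAt Y₂ y' := by
    by_contra h; exact hy' (Or.inr h)
  exact ⟨y, y', hI.1, hyy', hI'.2, rich_loops h₁ h₂ c1 c2 hr, rich_loops h₁ h₂ c3 c4 hr'⟩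

end Pool.Agent.H.MP_4bdd60_an.LP
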