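import Pool.Agent.H.MP_4bdd60_an.Fin
import Pool.Agent.H.MP_4bdd60_an.V.Gau2

/-!
# MP_4bdd60_an: the dichotomy from a measure on the line with a stretched gauge along scales
-/

set_option autoImplicit false

open Set Filter Topology Metric MeasureTheory
open scoped ENNReal Real

namespace Pool.Agent.H.MP_4bdd60_an

theorem of_curveS {φ χ : ℂ → ℂ} (hC : Curve φ χ) {u0 : ℂ} {k0 : ℝ → ℝ} (hu : ‖u0‖ = 1)
    (hk : Continuous k0)
    (hb : Function.Bijective k0) (hw : ∀ s : ℝ, χ (u0 * cay (k0 s)) = φ (cay s)) (h1 : χ u0 = φ 1)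
    (nu : Measure ℝ) [IsProbabilityMeasure nu] (B s p : ℝ) (hB : 0 ≤ B) (hs0 : 0 < s) (hs : s < 1)
    (hp0 : 0 < p) (hp : p < 2)
    (n1 : ∀ u v, u ≤ v → ∀ t : ℝ, 0 < t → t ≤ 1 → ENNReal.ofReal t ≤ nu (Icc u v) →
      Real.exp (-(B * t ^ (-s))) ≤ v - u)
    (n2 : ∀ u v, u ≤ v → ∀ t : ℝ, 0 < t → t ≤ 1 → ENNReal.ofReal t ≤ nu (Icc u v) →
      Real.exp (-(B * t ^ (-s))) ≤ |k0 v - k0 u|)
    (n3 : ∃ᶠ t in 𝓝[>] (0:ℝ), ∀ u v, u ≤ v → ENNReal.ofReal t ≤ nu (Icc u v) →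
      Real.exp (-(B * Real.log (1 / t) ^ p)) ≤ v - u ∧
      Real.exp (-(B * Real.log (1 / t) ^ p)) ≤ |k0 v - k0 u|)
    (f : ℂ ≃ₜ ℂ) (hf : DifferentiableOn ℂ f (φ '' sphere 0 1)ᶜ) (hfn : ¬ Differentiable ℂ f) :
    ∃ K : Set ℂ, K ⊆ φ '' sphere 0 1 ∧ K ≠ φ '' sphere 0 1 ∧ IsClosed K ∧
      ∃ g : ℂ ≃ₜ ℂ, DifferentiableOn ℂ g Kᶜ ∧ ¬ Differentiable ℂ g := by
  have hC' : Curve φ (fun u => χ (u0 * u)) := curve_rot hC hu
  have hmono : ∃ κ : ℝ, (κ = 1 ∨ κ = -1) ∧ StrictMono (fun s => κ * k0 s) := by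
    rcases hk.strictMono_of_inj hb.1 with hm | hm
    · exact ⟨1, Or.inl rfl, by simpa using hm⟩
    · refine ⟨-1, Or.inr rfl, ?_⟩
      intro x y hxy
      have := hm hxy
      simp only
      linarith
  obtain ⟨κ, hκ, hmono⟩ := hmono
  have e : ∀ u v : ℝ, u ≤ v →
      (fun s => κ * k0 s) v - (fun s => κ * k0 s) u = |k0 v - k0 u| := by
    intro u v huv
    have h0 : 0 ≤ κ * k0 v - κ * k0 u := sub_nonneg.2 (hmono.monotone huv)
    simp only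
    rw [← abs_of_nonneg h0, ← mul_sub, abs_mul]
    rcases hκ with rfl | rfl <;> simp
  obtain ⟨y1, y2, h12, hl1, hl2⟩ := exists_loopPointsS (fun s => κ * k0 s) hmono nu B s p hB hs0 hs
    hp0 hp n1
    (fun u v huv t ht ht1 h => by rw [e u v huv]; exact n2 u v huv t ht ht1 h)
    (n3.mono fun t ht u v huv h => by rw [e u v huv]; exact ht u v huv h)
  refine of_loopPoints hC' hk hw ?_ hκ hmono h12 hl1 hl2 f hf hfn
  simp only [mul_one]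
  exact h1

end Pool.Agent.H.MP_4bdd60_an
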